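import Pool.Agent.L7h29.GT.Hr
import Pool.Agent.L7h29.GT.Wts

/-!
# All representations `ρ` of `GL_2(ℂ)`, for forms with few absolute values of Hecke eigenvalues

`n = 1`, so `G = GL_2 = GSp_2` and `ᴸG = GL_2(ℂ)`. Let `π` be a unitary automorphic representation of `GL_2` over
`ℚ` whose central character is a Dirichlet character `ω` (any parity, any conductor), with any component at infinity,
`S` a finite set of primes containing the ramified ones, `A_p = diag (α_p, β_p)` the Satake parameters and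
`a_p = α_p + β_p` the normalised Hecke eigenvalues; so `α_p β_p = ω(p)`, and `\bar a_p ω(p) = a_p` by unitarity.

**Theorem.** Assume that for some finite set `T` of primes the absolute values `|a_p|`, `p ∉ T`, take at most `J`
nonzero values, and that

* (M) for `k ≤ 2 J` and all Dirichlet characters `χ` the Euler product `L(s, Sym^k π ⊗ χ)` has a meromorphic
  continuation;
* (F) for the odd `k = 2 j + 1 ≤ 2 J + 1` and the twists by `ψ ω^{-j} χ`, where `ψ` is one fixed Dirichlet character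
  and `χ` runs over the Dirichlet characters of conductor prime to the one of `ψ`, the continuation is a quotient of
  entire functions of order at most `3/2`, with a functional equation relating it to the contragredient (with any
  gamma factors).

Then

* all `α_p`, `β_p`, `p ∉ S`, are roots of unity;
* for **every** finite-dimensional algebraic representation `ρ` of `GL_2(ℂ)` the Euler product
  `L_S(s, π, ρ) = ∏_{p ∉ S} det (1 - ρ(A_p) p^{-s})⁻¹` has a meromorphic continuation to `ℂ`.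

For `J = 4` the assumptions are theorems: (M) for `k ≤ 8` by Rankin-Selberg theory and the automorphy of `Sym^k π`,
`k ≤ 4` (Gelbart-Jacquet, Kim-Shahidi, Kim), and (F) for `k ≤ 9`, if `ψ` is highly ramified at one prime, by the
Langlands-Shahidi method (Kim-Shahidi; Gelbart-Shahidi). So the theorem covers the values
`{2, 1, (√5 + 1)/2, (√5 - 1)/2}` of the icosahedral type. No Galois representation is assumed or constructed. Since
the composition of a representation of `GSpin_{2n+1}(ℂ)` with a homomorphism `GL_2(ℂ) → GSpin_{2n+1}(ℂ)` is a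
representation of `GL_2(ℂ)`, the theorem also gives all L-functions of all weak lifts of `π` to the groups `GSp_{2n}`.

Idea. With `t_p = |a_p|² = a_p² / ω(p)` and `Q = ∏_v (X - v²)` over the nonzero values `v`, the product `a_p Q(t_p)`
vanishes for `p ∉ T` and is a real combination of the traces of `Sym^{2j+1} π ⊗ ω^{-j}`, `j ≤ J`. Applied to the
selfdual products of the twists by `ψ χ` and their contragredients, the theorem on real relations between L-functions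
gives `(x^n + x^{-n} ω(p)^{-n}) a Q(t) = 0`, `x = ψ(p) χ(p)`, for the traces `a`, `t` of all powers `A_p^n`, at all
`p ∉ S`; choosing `χ` removes the first factor. So the set of the values of `t`, with `0`, is closed under powers, the
quotients `α_p / β_p` are roots of unity, and the monic polynomial with these roots has integral coefficients. Hence
all characters of `GL_2(ℂ)` are integral combinations of the `Sym^k ⊗ det^m`, `k ≤ 2 J`, on these classes.
-/

set_option autoImplicit false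

open Filter Topology ComplexConjugate

namespace Pool.Agent.Results.MP_eea520_nt.AllRepresentationsGLTwo

/-- `∏_{m ∈ μ} Γ_ℝ(s + m)⁻¹`, `Γ_ℝ(s) = π^{-s/2} Γ(s/2)` -/
noncomputable def invGamma (μ : List ℂ) (s : ℂ) : ℂ :=
  (μ.map fun m => (Complex.Gammaℝ (s + m))⁻¹).prod

/-- `∏_{(p, b) ∈ l} (1 - b p^{-s})` -/
noncomputable def finEuler (l : List (ℕ × ℂ)) (s : ℂ) : ℂ :=
  (l.map fun x => 1 - x.2 * (x.1 : ℂ) ^ (-s)).prod

/-- The Euler products `L_S(s, Sym^k π ⊗ χ)`, with the parameters `χ(p) α_p^{k - i} β_p^i`, and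
`L_S(s, (Sym^k π ⊗ χ)^∨)`, with the inverse parameters, extend to the meromorphic functions `N/D` and `N'/D'` on `ℂ`,
and there is a functional equation between them. -/
structure SymmetricPowerL (S : Finset ℕ) (α β χ : ℕ → ℂ) (k : ℕ) (N D N' D' : ℂ → ℂ) : Prop where
  /-- the four functions are entire -/
  entire : Differentiable ℂ N ∧ Differentiable ℂ D ∧ Differentiable ℂ N' ∧ Differentiable ℂ D'
  /-- of order at most `3/2` -/
  order : ∃ C : ℝ, ∀ s, ‖N s‖ ≤ Real.exp (C * (1 + ‖s‖) ^ (3 / 2 : ℝ)) ∧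
    ‖D s‖ ≤ Real.exp (C * (1 + ‖s‖) ^ (3 / 2 : ℝ)) ∧
    ‖N' s‖ ≤ Real.exp (C * (1 + ‖s‖) ^ (3 / 2 : ℝ)) ∧
    ‖D' s‖ ≤ Real.exp (C * (1 + ‖s‖) ^ (3 / 2 : ℝ))
  /-- the denominators have no zeros in `Re s > 1` -/
  ne_zero : ∀ s : ℂ, 1 < s.re → D s ≠ 0 ∧ D' s ≠ 0
  /-- the partial Euler products converge to `N/D` in `Re s > 1` -/
  euler : ∀ s : ℂ, 1 < s.re → Tendsto (fun X : ℕ =>
    ∏ p ∈ (Finset.range X).filter (fun p => p.Prime ∧ p ∉ S),
      ∏ i ∈ Finset.range (k + 1), (1 - χ p * (α p ^ (k - i) * β p ^ i) * (p : ℂ) ^ (-s))⁻¹) atTop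
      (𝓝 (N s / D s))
  /-- the partial Euler products of the contragredient converge to `N'/D'` in `Re s > 1` -/
  euler' : ∀ s : ℂ, 1 < s.re → Tendsto (fun X : ℕ =>
    ∏ p ∈ (Finset.range X).filter (fun p => p.Prime ∧ p ∉ S),
      ∏ i ∈ Finset.range (k + 1),
        (1 - (χ p * (α p ^ (k - i) * β p ^ i))⁻¹ * (p : ℂ) ^ (-s))⁻¹) atTop (𝓝 (N' s / D' s))
  /-- functional equation: with `Λ(s) = q^s · (invGamma μ s)⁻¹ · finEuler l' s / finEuler l s · N s / D s` and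
  `Λ'(s) = q^s · (invGamma μ' s)⁻¹ · finEuler k' s / finEuler k s · N' s / D' s` it says `Λ(s) = ε Λ'(1 - s)` -/
  functional : ∃ (μ μ' : List ℂ) (l l' k k' : List (ℕ × ℂ)) (q : ℝ) (ε : ℂ), 0 < q ∧ ε ≠ 0 ∧
    (∀ x ∈ l, x.1.Prime ∧ x.1 ∈ S) ∧ (∀ x ∈ l', x.1.Prime ∧ x.1 ∈ S) ∧
    (∀ x ∈ k, x.1.Prime ∧ x.1 ∈ S) ∧ (∀ x ∈ k', x.1.Prime ∧ x.1 ∈ S) ∧
    ∀ s, (q : ℂ) ^ s * invGamma μ' (1 - s) * finEuler k (1 - s) * finEuler l' s * (N s * D' (1 - s)) =
      ε * (q : ℂ) ^ (1 - s) * invGamma μ s * finEuler l s * finEuler k' (1 - s) * (N' (1 - s) * D s)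

/-- the Euler product `L_S(s, Sym^k π ⊗ χ)` extends to a meromorphic function on `ℂ` -/
def Continues (S : Finset ℕ) (α β χ : ℕ → ℂ) (k : ℕ) : Prop :=
  ∃ M : ℂ → ℂ, Meromorphic M ∧ ∀ s : ℂ, 1 < s.re → Tendsto (fun X : ℕ =>
    ∏ p ∈ (Finset.range X).filter (fun p => p.Prime ∧ p ∉ S),
      ∏ i ∈ Finset.range (k + 1), (1 - χ p * (α p ^ (k - i) * β p ^ i) * (p : ℂ) ^ (-s))⁻¹) atTop
      (𝓝 (M s))

/-- `ρ` is algebraic: the entries of `ρ(g)` are polynomials in the entries of `g` and `(det g)⁻¹` -/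
def IsAlgebraic {m : ℕ} (ρ : GL (Fin 2) ℂ →* GL (Fin m) ℂ) : Prop :=
  ∀ i j : Fin m, ∃ P : MvPolynomial (Option (Fin 2 × Fin 2)) ℂ, ∀ g : GL (Fin 2) ℂ,
    (ρ g).val i j = MvPolynomial.eval
      (fun o : Option (Fin 2 × Fin 2) => o.elim ((g.val.det)⁻¹) fun x => g.val x.1 x.2) P

/-- the matrix `diag (a, b)` in `GL_2(ℂ)` -/
noncomputable def diag (a b : ℂˣ) : GL (Fin 2) ℂ :=
  ⟨!![(a : ℂ), 0; 0, (b : ℂ)], !![((a⁻¹ : ℂˣ) : ℂ), 0; 0, ((b⁻¹ : ℂˣ) : ℂ)], by
    ext i j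
    fin_cases i <;> fin_cases j <;> simp [Matrix.mul_apply, Fin.sum_univ_two], by
    ext i j
    fin_cases i <;> fin_cases j <;> simp [Matrix.mul_apply, Fin.sum_univ_two]⟩

/-- **All `ρ`, for forms on `GL_2` for which `|a_p|` takes few values**; `J = 4` is unconditional. -/
theorem result {S : Finset ℕ} {α β : ℕ → ℂˣ} {N₀ M₀ : ℕ} [NeZero N₀] [NeZero M₀]
    (ω : DirichletCharacter ℂ N₀) (ψ : DirichletCharacter ℂ M₀)
    (hN₀ : N₀.primeFactors ⊆ S) (hM₀ : M₀.primeFactors ⊆ S)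
    (hω : ∀ p : ℕ, p.Prime → p ∉ S → (α p : ℂ) * β p = ω (p : ZMod N₀))
    (hu : ∀ p : ℕ, p.Prime → p ∉ S → conj ((α p : ℂ) + β p) * ω (p : ZMod N₀) = α p + β p)
    {J : ℕ} (hM : ∀ k ≤ 2 * J, ∀ (n : ℕ) [NeZero n] (χ : DirichletCharacter ℂ n),
      Continues (S ∪ n.primeFactors) (fun p => α p) (fun p => β p) (fun p => χ (p : ZMod n)) k)
    (hL : ∀ j ≤ J, ∀ (n : ℕ) [NeZero n], n.Coprime M₀ → ∀ χ : DirichletCharacter ℂ n,
      ∃ N D N' D' : ℂ → ℂ, SymmetricPowerL (S ∪ n.primeFactors) (fun p => α p) (fun p => β p)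
        (fun p => ψ (p : ZMod M₀) * χ (p : ZMod n) * (ω (p : ZMod N₀) ^ j)⁻¹) (2 * j + 1) N D N' D')
    (T : Finset ℕ)
    (hT : (((fun p : ℕ => ‖(α p : ℂ) + β p‖) '' {p : ℕ | p.Prime ∧ p ∉ T}) \ {0}).encard ≤ J) :
    (∀ p : ℕ, p.Prime → p ∉ S → ∃ n : ℕ, 0 < n ∧ α p ^ n = 1 ∧ β p ^ n = 1) ∧
      ∀ (m : ℕ) (ρ : GL (Fin 2) ℂ →* GL (Fin m) ℂ), IsAlgebraic ρ →
        ∃ M : ℂ → ℂ, Meromorphic M ∧ ∀ s : ℂ, 1 < s.re → Tendsto (fun X : ℕ =>
          ∏ p ∈ (Finset.range X).filter (fun p => p.Prime ∧ p ∉ S),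
            ((1 - (p : ℂ) ^ (-s) • (ρ (diag (α p) (β p))).val).det)⁻¹) atTop (𝓝 (M s)) := by
  classical
  have hn0 := NeZero.ne N₀
  have hcopS : ∀ p : ℕ, p.Prime → p ∉ S → p.Coprime N₀ := fun p hp hpS =>
    Pool.Agent.L7h29.GT.cop hp hn0 fun h3 => hpS (hN₀ h3)
  set a : ℕ → ℂ := fun p => α p with ha
  set b : ℕ → ℂ := fun p => β p with hb
  have ha0 : ∀ p, a p ≠ 0 := fun p => (α p).ne_zero
  have hb0 : ∀ p, b p ≠ 0 := fun p => (β p).ne_zero
  have hab : ∀ p : ℕ, p.Prime → p ∉ S → a p * b p = ω (p : ZMod N₀) := hω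
  obtain ⟨⟨V, hV, hR⟩, hroot⟩ := Pool.Agent.L7h29.GT.form' hN₀ hab hu (ψ := ψ) hM₀ (J := J) (by
    intro j hj n _ hn χ
    obtain ⟨N, D, N', D', h⟩ := hL j hj n hn χ
    have h1 : Pool.Agent.L7h29.GT.DL (S ∪ n.primeFactors) (2 * j + 2)
        (Pool.Agent.L7h29.GT.sb a b (fun p => ψ (p : ZMod M₀) * χ (p : ZMod n) *
          (ω (p : ZMod N₀) ^ j)⁻¹) (2 * j + 1)) N D N' D' :=
      ⟨h.entire.1, h.entire.2.1, h.entire.2.2.1, h.entire.2.2.2, h.order,
        h.ne_zero, h.euler, h.euler', h.functional⟩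
    refine ⟨N, D, N', D', h1.congr fun p hp hpS i _ => ?_⟩
    rw [Finset.mem_union, not_or] at hpS
    unfold Pool.Agent.L7h29.GT.sb
    simp only [hab p hp hpS.1]) T hT
  have hna : ∀ p : ℕ, p.Prime → p ∉ S → ‖a p‖ = 1 := fun p hp hpS => by
    obtain ⟨n, hn, h1, -⟩ := hroot p hp hpS
    exact Complex.norm_eq_one_of_pow_eq_one h1 hn.ne'
  have hnb : ∀ p : ℕ, p.Prime → p ∉ S → ‖b p‖ = 1 := fun p hp hpS => by
    obtain ⟨n, hn, -, h1⟩ := hroot p hp hpS
    exact Complex.norm_eq_one_of_pow_eq_one h1 hn.ne'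
  refine ⟨fun p hp hpS => ?_, fun m ρ hρ => ?_⟩
  · obtain ⟨n, hn, h1, h2⟩ := hroot p hp hpS
    refine ⟨n, hn, ?_, ?_⟩
    · ext
      push_cast
      exact h1
    · ext
      push_cast
      exact h2
  -- the first representations
  have hE : ∀ k ≤ 2 * J, ∀ j : ℤ,
      Pool.Agent.L7h29.GT.EE a b k j ∈ Pool.Agent.L7h29.GT.MerG S := by
    intro k hk j
    obtain ⟨M, hM1, hM2⟩ := hM k hk N₀ (ω ^ j)
    rw [Finset.union_eq_left.2 hN₀] at hM2
    have hωj : ∀ p : ℕ, p.Prime → p ∉ S → (ω ^ j) (p : ZMod N₀) = (a p * b p) ^ j := by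
      intro p hp hpS
      have h5 := Pool.Agent.L7h29.GT.mc_zpow ω (ZMod.unitOfCoprime p (hcopS p hp hpS)) j
      rw [ZMod.coe_unitOfCoprime] at h5
      rw [h5, hab p hp hpS]
    refine Pool.Agent.L7h29.GT.MerG_of' hM1 (b := fun p i => (a p * b p) ^ j *
      (a p ^ (k - i) * b p ^ i)) (m := k + 1) (fun s hs => (hM2 s hs).congr fun X => ?_)
      (fun p hp hpS i _ => ?_) fun p hp hpS n hn => ?_
    · refine Finset.prod_congr rfl fun p hp => Finset.prod_congr rfl fun i _ => ?_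
      rw [Finset.mem_filter] at hp
      simp only [hωj p hp.2.1 hp.2.2]
    · rw [norm_mul, norm_zpow, norm_mul, norm_mul, norm_pow, norm_pow, hna p hp hpS, hnb p hp hpS]
      simp
    · have h6 := Pool.Agent.L7h29.GT.sb_sum a b (fun p => (a p * b p) ^ j) k p n
      unfold Pool.Agent.L7h29.GT.sb at h6
      rw [h6]
      unfold Pool.Agent.L7h29.GT.EE
      congr 1
      rw [← mul_pow, ← zpow_natCast, ← zpow_natCast, ← zpow_mul, ← zpow_mul, mul_comm j]
  have hcongr : ∀ f ∈ Pool.Agent.L7h29.GT.MerG S, ∀ g : ℕ → ℕ → ℂ,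
      (∀ p : ℕ, p.Prime → p ∉ S → ∀ n : ℕ, 1 ≤ n → f p n = g p n) →
        g ∈ Pool.Agent.L7h29.GT.MerG S := fun f hf g hg => Pool.Agent.L7h29.GT.MerG_congr hf hg
  have hall := hR.all2 hV (Pool.Agent.L7h29.GT.MerG S) hcongr hE
  obtain ⟨B, r, hB, hr, hdet⟩ := Pool.Agent.L7h29.GT.rep_weights ρ hρ
  obtain ⟨-, M, hM, hlim⟩ := Pool.Agent.L7h29.GT.wt_mem (fun p _ _ => ha0 p) (fun p _ _ => hb0 p)
    (Pool.Agent.L7h29.GT.MerG S) hcongr hall B hB r hr
  refine ⟨M, hM, fun s hs => (hlim s hs).congr fun X => ?_⟩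
  refine Finset.prod_congr rfl fun p hp => ?_
  rw [Finset.mem_filter] at hp
  rw [Pool.Agent.L7h29.GT.exp_Lp B (fun x => a p ^ x.1 * b p ^ x.2) r (fun x _ => by
    rw [norm_mul, norm_zpow, norm_zpow, hna p hp.2.1 hp.2.2, hnb p hp.2.1 hp.2.2]
    simp) hp.2.1 hs (fun n hn => by
    simp only [Finset.sum_apply, nsmul_eq_mul, Pi.mul_apply, Pi.natCast_apply]
    refine Finset.sum_congr rfl fun x _ => ?_
    unfold Pool.Agent.L7h29.GT.wt
    rw [mul_pow, ← zpow_natCast (a p), ← zpow_natCast (b p), ← zpow_mul, ← zpow_mul,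
      ← zpow_natCast (a p ^ x.1), ← zpow_natCast (b p ^ x.2), ← zpow_mul, ← zpow_mul,
      mul_comm x.1, mul_comm x.2])]
  have h1 := hdet (α p) (β p) ((p : ℂ) ^ (-s))
  have h2 : diag (α p) (β p) = Pool.Agent.L7h29.GT.dg (α p) (β p) := rfl
  rw [h2, h1, Finset.prod_inv_distrib]

end Pool.Agent.Results.MP_eea520_nt.AllRepresentationsGLTwo
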