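import Pool.Agent.L7h29.GT.Form
import Pool.Agent.L7h29.GT.Gen

/-!
# All representations `ρ` of `ᴸGSp_4 = GSp_4(ℂ)`, for endoscopic forms built from forms with few `|a_p|`

`n = 2`. Let `π_1`, `π_2` be unitary automorphic representations of `GL_2` over `ℚ` with the same central character, a
Dirichlet character `ω`, and let `π` be an automorphic representation of `GSp_4` with the Satake parameters
`A_p = diag (α_p, γ_p, β_p, δ_p)` in `ᴸGSp_4 = GSpin_5(ℂ) = GSp_4(ℂ)`, `p ∉ S`, where `(α_p, β_p)` and `(γ_p, δ_p)`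
are those of `π_1` and `π_2` (a weak endoscopic lift: `π_1` and `π_2` may be Maass forms of any kind). So the spin
L-function of `π` is `L(s, π_1) L(s, π_2)`, and the one of degree five is `L(s, π_1 × π_2^∨) ζ(s)`.

**Theorem.** Assume that the absolute values of the Hecke eigenvalues of `π_1` take at most `J` nonzero values, and
those of `π_2` at most `K`, outside a finite set of primes; that `L(s, Sym^k π_1 ⊗ χ)`, `k ≤ 2 J + 1`, and
`L(s, Sym^k π_2 ⊗ χ)`, `k ≤ 2 K + 1`, have a meromorphic continuation (a quotient of entire functions of order at most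
`3/2`) and a functional equation for all Dirichlet characters `χ`; and that the Euler products
`L_S(s, Sym^i π_1 × Sym^j π_2 ⊗ ω^m)`, `i ≤ 2 J`, `j ≤ 2 K`, have a meromorphic continuation. Then for **every**
finite-dimensional algebraic representation `ρ` of `GSp_4(ℂ)` the Euler product
`L_S(s, π, ρ) = ∏_{p ∉ S} det (1 - ρ(A_p) p^{-s})⁻¹` has a meromorphic continuation to `ℂ`.

For `J = K = 2` (for example `|a_p|` in `{0, 1, 2}`, the tetrahedral type) all assumptions on the L-functions are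
theorems: `Sym^i π`, `i ≤ 4`, is automorphic (Gelbart-Jacquet, Kim-Shahidi, Kim), so
`L(s, Sym^i π_1 × Sym^j π_2 ⊗ χ)`, `i, j ≤ 4`, are Rankin-Selberg L-functions and
`L(s, Sym^5 π_1 ⊗ χ) = L(s, Sym^4 π_1 × π_1 ⊗ χ) / L(s, Sym^3 π_1 ⊗ ω χ)`. No Galois representation is used.

Idea. For one form: with `t = |a|²` and `Q` the monic polynomial with the squares of the nonzero values as roots,
`a_p Q(t_p)` is a real combination of the traces of `Sym^{2j+1} π ⊗ ω^{-j}`; the theorem on real relations between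
L-functions, applied to all twists, extends its vanishing to all powers of all `A_p`, `p ∉ S`. So the nonzero values
of `t` and `0` form a set closed under powers, and `Q` has integral coefficients; all `Sym^i ⊗ det^m` are integral
combinations of those with `i ≤ 2 J` on these classes, and similarly for the second form. The weights of `ρ` on the
diagonal torus of `GSp_4(ℂ)` are invariant under the two reflections `α ↔ β` and `γ ↔ δ`, so the trace of `ρ(A_p^n)`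
is an integral combination of the traces of `Sym^i ⊗ Sym^j ⊗ det^m`.
-/

set_option autoImplicit false

open Filter Topology ComplexConjugate

namespace Pool.Agent.Results.MP_eea520_nt.AllRepresentationsGSp4

/-- `∏_{m ∈ μ} Γ_ℝ(s + m)⁻¹`, `Γ_ℝ(s) = π^{-s/2} Γ(s/2)` -/
noncomputable def invGamma (μ : List ℂ) (s : ℂ) : ℂ :=
  (μ.map fun m => (Complex.Gammaℝ (s + m))⁻¹).prod

/-- `∏_{(p, b) ∈ l} (1 - b p^{-s})` -/
noncomputable def finEuler (l : List (ℕ × ℂ)) (s : ℂ) : ℂ :=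
  (l.map fun x => 1 - x.2 * (x.1 : ℂ) ^ (-s)).prod

/-- The Euler products `L_S(s, Sym^k π ⊗ χ)`, with the parameters `χ(p) α_p^{k - i} β_p^i`, and
`L_S(s, (Sym^k π ⊗ χ)^∨)`, with the inverse parameters, extend to the meromorphic functions `N/D` and `N'/D'` on `ℂ`,
and there is a functional equation between them. -/
structure SymmetricPowerL (S : Finset ℕ) (α β χ : ℕ → ℂ) (k : ℕ) (N D N' D' : ℂ → ℂ) : Prop where
  /-- the four functions are entire -/
  entire : Differentiable ℂ N ∧ Differentiable ℂ D ∧ Differentiable ℂ N' ∧ Differentiable ℂ D'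
  /-- of order at most `3/2` -/
  order : ∃ C : ℝ, ∀ s, ‖N s‖ ≤ Real.exp (C * (1 + ‖s‖) ^ (3 / 2 : ℝ)) ∧
    ‖D s‖ ≤ Real.exp (C * (1 + ‖s‖) ^ (3 / 2 : ℝ)) ∧
    ‖N' s‖ ≤ Real.exp (C * (1 + ‖s‖) ^ (3 / 2 : ℝ)) ∧
    ‖D' s‖ ≤ Real.exp (C * (1 + ‖s‖) ^ (3 / 2 : ℝ))
  /-- the denominators have no zeros in `Re s > 1` -/
  ne_zero : ∀ s : ℂ, 1 < s.re → D s ≠ 0 ∧ D' s ≠ 0
  /-- the partial Euler products converge to `N/D` in `Re s > 1` -/
  euler : ∀ s : ℂ, 1 < s.re → Tendsto (fun X : ℕ =>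
    ∏ p ∈ (Finset.range X).filter (fun p => p.Prime ∧ p ∉ S),
      ∏ i ∈ Finset.range (k + 1), (1 - χ p * (α p ^ (k - i) * β p ^ i) * (p : ℂ) ^ (-s))⁻¹) atTop
      (𝓝 (N s / D s))
  /-- the partial Euler products of the contragredient converge to `N'/D'` in `Re s > 1` -/
  euler' : ∀ s : ℂ, 1 < s.re → Tendsto (fun X : ℕ =>
    ∏ p ∈ (Finset.range X).filter (fun p => p.Prime ∧ p ∉ S),
      ∏ i ∈ Finset.range (k + 1),
        (1 - (χ p * (α p ^ (k - i) * β p ^ i))⁻¹ * (p : ℂ) ^ (-s))⁻¹) atTop (𝓝 (N' s / D' s))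
  /-- functional equation: with `Λ(s) = q^s · (invGamma μ s)⁻¹ · finEuler l' s / finEuler l s · N s / D s` and
  `Λ'(s) = q^s · (invGamma μ' s)⁻¹ · finEuler k' s / finEuler k s · N' s / D' s` it says `Λ(s) = ε Λ'(1 - s)` -/
  functional : ∃ (μ μ' : List ℂ) (l l' k k' : List (ℕ × ℂ)) (q : ℝ) (ε : ℂ), 0 < q ∧ ε ≠ 0 ∧
    (∀ x ∈ l, x.1.Prime ∧ x.1 ∈ S) ∧ (∀ x ∈ l', x.1.Prime ∧ x.1 ∈ S) ∧
    (∀ x ∈ k, x.1.Prime ∧ x.1 ∈ S) ∧ (∀ x ∈ k', x.1.Prime ∧ x.1 ∈ S) ∧
    ∀ s, (q : ℂ) ^ s * invGamma μ' (1 - s) * finEuler k (1 - s) * finEuler l' s * (N s * D' (1 - s)) =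
      ε * (q : ℂ) ^ (1 - s) * invGamma μ s * finEuler l s * finEuler k' (1 - s) * (N' (1 - s) * D s)

/-- A unitary form on `GL_2` with central character `ω` and Satake parameters `(α_p, β_p)`, such that the L-functions
of `Sym^k π ⊗ χ`, `k ≤ 2 J + 1`, have the expected properties, and `|a_p|` takes at most `J` nonzero values outside a
finite set `T` of primes. -/
structure FewValuesForm (S : Finset ℕ) {N₀ : ℕ} (ω : DirichletCharacter ℂ N₀) (α β : ℕ → ℂˣ) (J : ℕ) :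
    Prop where
  /-- the central character -/
  central : ∀ p : ℕ, p.Prime → p ∉ S → (α p : ℂ) * β p = ω (p : ZMod N₀)
  /-- unitarity -/
  unitary : ∀ p : ℕ, p.Prime → p ∉ S → conj ((α p : ℂ) + β p) * ω (p : ZMod N₀) = α p + β p
  /-- the symmetric powers and their twists -/
  symmetric : ∀ k ≤ 2 * J + 1, ∀ (n : ℕ) [NeZero n] (χ : DirichletCharacter ℂ n),
    ∃ N D N' D' : ℂ → ℂ, SymmetricPowerL (S ∪ n.primeFactors) (fun p => α p) (fun p => β p)
      (fun p => χ (p : ZMod n)) k N D N' D'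
  /-- few absolute values -/
  few : ∃ T : Finset ℕ,
    (((fun p : ℕ => ‖(α p : ℂ) + β p‖) '' {p : ℕ | p.Prime ∧ p ∉ T}) \ {0}).encard ≤ J

/-- The Euler product `L_S(s, Sym^i π_1 × Sym^j π_2 ⊗ ω^m)` has a meromorphic continuation. -/
def PairContinues (S : Finset ℕ) (α β γ δ : ℕ → ℂ) (i j : ℕ) (m : ℤ) : Prop :=
  ∃ M : ℂ → ℂ, Meromorphic M ∧ ∀ s : ℂ, 1 < s.re → Tendsto (fun X : ℕ =>
    ∏ p ∈ (Finset.range X).filter (fun p => p.Prime ∧ p ∉ S),
      ∏ a ∈ Finset.range (i + 1), ∏ b ∈ Finset.range (j + 1),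
        (1 - (α p * β p) ^ m * (α p ^ (i - a) * β p ^ a) * (γ p ^ (j - b) * δ p ^ b) *
          (p : ℂ) ^ (-s))⁻¹) atTop (𝓝 (M s))

/-- the alternating form -/
def form : Matrix (Fin 4) (Fin 4) ℂ := !![0, 0, 1, 0; 0, 0, 0, 1; -1, 0, 0, 0; 0, -1, 0, 0]

/-- the group `GSp_4(ℂ)` of the matrices `U` with `ᵗU J U = λ J` for some `λ ≠ 0` -/
def GSp4 : Subgroup (GL (Fin 4) ℂ) where
  carrier := {U | ∃ c : ℂˣ, U.val.transpose * form * U.val = (c : ℂ) • form}
  one_mem' := ⟨1, by simp⟩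
  mul_mem' := by
    rintro U V ⟨c, hc⟩ ⟨d, hd⟩
    refine ⟨c * d, ?_⟩
    rw [Units.val_mul, Matrix.transpose_mul]
    calc V.val.transpose * U.val.transpose * form * (U.val * V.val) =
        V.val.transpose * (U.val.transpose * form * U.val) * V.val := by simp only [mul_assoc]
      _ = _ := by
        rw [hc, Matrix.mul_smul, Matrix.smul_mul, hd, smul_smul]
        push_cast
        rfl
  inv_mem' := by
    rintro U ⟨c, hc⟩
    refine ⟨c⁻¹, ?_⟩
    have h1 : (U⁻¹).val.transpose * U.val.transpose = 1 := by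
      rw [← Matrix.transpose_mul, Units.mul_inv, Matrix.transpose_one]
    have h2 : form = (c⁻¹ : ℂˣ) • (U.val.transpose * form * U.val) := by
      rw [hc, Units.smul_def, smul_smul, Units.inv_mul, one_smul]
    calc (U⁻¹).val.transpose * form * (U⁻¹).val =
        (U⁻¹).val.transpose * ((c⁻¹ : ℂˣ) • (U.val.transpose * form * U.val)) * (U⁻¹).val := by
          rw [← h2]
      _ = (c⁻¹ : ℂˣ) • (((U⁻¹).val.transpose * U.val.transpose) * form * (U.val * (U⁻¹).val)) := by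
          rw [Matrix.mul_smul, Matrix.smul_mul]
          simp only [mul_assoc]
      _ = _ := by
          rw [h1, Units.mul_inv, one_mul, mul_one, Units.smul_def]

/-- `ρ` is algebraic: the entries of `ρ(g)` are polynomials in the entries of `g` and `(det g)⁻¹` -/
def IsAlgebraic {m : ℕ} (ρ : GSp4 →* GL (Fin m) ℂ) : Prop :=
  ∀ i j : Fin m, ∃ P : MvPolynomial (Option (Fin 4 × Fin 4)) ℂ, ∀ g : GSp4,
    (ρ g).val i j = MvPolynomial.eval
      (fun o : Option (Fin 4 × Fin 4) => o.elim ((g.val.val.det)⁻¹) fun x => g.val.val x.1 x.2) P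

/-! ### the torus -/

/-- characters of the torus -/
noncomputable def ee (x : ℤ × ℤ × ℤ) : (ℂˣ × ℂˣ × ℂˣ) →* ℂ where
  toFun g := ((g.1 ^ x.1 * g.2.1 ^ x.2.1 * g.2.2 ^ x.2.2 : ℂˣ) : ℂ)
  map_one' := by simp
  map_mul' g h := by
    simp only [Prod.fst_mul, Prod.snd_mul, mul_zpow, Units.val_mul]
    ring

theorem ee_apply (x : ℤ × ℤ × ℤ) (g : ℂˣ × ℂˣ × ℂˣ) :
    ee x g = (g.1 : ℂ) ^ x.1 * (g.2.1 : ℂ) ^ x.2.1 * (g.2.2 : ℂ) ^ x.2.2 := by
  simp [ee]

theorem chars : Pool.Agent.L7h29.GT.Gen.Chars ee := by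
  refine ⟨fun x y g => ?_, fun g => by rw [ee_apply]; simp, ?_⟩
  · rw [ee_apply, ee_apply, ee_apply]
    simp only [Prod.fst_add, Prod.snd_add]
    rw [zpow_add₀ g.1.ne_zero, zpow_add₀ g.2.1.ne_zero, zpow_add₀ g.2.2.ne_zero]
    ring
  · rintro ⟨x1, x2, x3⟩ ⟨y1, y2, y3⟩ h
    have h2 : ((2 : ℂ)) ≠ 0 := two_ne_zero
    have key : ∀ x y : ℤ, (2 : ℂ) ^ x = (2 : ℂ) ^ y → x = y := by
      intro x y hxy
      have h3 := congrArg norm hxy
      rw [norm_zpow, norm_zpow, Complex.norm_ofNat] at h3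
      exact zpow_right_injective₀ (by norm_num) (by norm_num) h3
    have e1 := DFunLike.congr_fun h (Units.mk0 2 h2, 1, 1)
    have e2 := DFunLike.congr_fun h (1, Units.mk0 2 h2, 1)
    have e3 := DFunLike.congr_fun h (1, 1, Units.mk0 2 h2)
    rw [ee_apply, ee_apply] at e1 e2 e3
    simp only [Units.val_mk0, Units.val_one, one_zpow, mul_one, one_mul] at e1 e2 e3
    rw [Prod.mk.injEq, Prod.mk.injEq]
    exact ⟨key _ _ e1, key _ _ e2, key _ _ e3⟩

/-- the diagonal matrix `diag (a, c, b, a b / c)` -/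
noncomputable def tor (g : ℂˣ × ℂˣ × ℂˣ) : GL (Fin 4) ℂ :=
  ⟨Matrix.diagonal ![(g.1 : ℂ), g.2.2, g.2.1, g.1 * g.2.1 * (g.2.2 : ℂ)⁻¹],
    Matrix.diagonal ![(g.1 : ℂ)⁻¹, (g.2.2 : ℂ)⁻¹, (g.2.1 : ℂ)⁻¹, (g.1 : ℂ)⁻¹ * (g.2.1 : ℂ)⁻¹ * g.2.2], by
    rw [Matrix.diagonal_mul_diagonal, ← Matrix.diagonal_one]
    congr 1
    funext i
    have h1 := g.1.ne_zero
    have h2 := g.2.1.ne_zero
    have h3 := g.2.2.ne_zero
    fin_cases i <;> simp <;> field_simp, by
    rw [Matrix.diagonal_mul_diagonal, ← Matrix.diagonal_one]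
    congr 1
    funext i
    have h1 := g.1.ne_zero
    have h2 := g.2.1.ne_zero
    have h3 := g.2.2.ne_zero
    fin_cases i <;> simp <;> field_simp⟩

theorem tor_mem (g : ℂˣ × ℂˣ × ℂˣ) : tor g ∈ GSp4 := by
  refine ⟨g.1 * g.2.1, ?_⟩
  have h3 := g.2.2.ne_zero
  ext i j
  fin_cases i <;> fin_cases j <;>
    simp [tor, form, Matrix.mul_apply, Fin.sum_univ_four, Matrix.diagonal] <;> field_simp

/-- the torus in `GSp_4` -/
noncomputable def torus : (ℂˣ × ℂˣ × ℂˣ) →* GSp4 where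
  toFun g := ⟨tor g, tor_mem g⟩
  map_one' := by
    refine Subtype.ext (Units.ext ?_)
    simp only [tor]
    rw [Subgroup.coe_one, Units.val_one, ← Matrix.diagonal_one]
    congr 1
    funext i
    fin_cases i <;> simp
  map_mul' g h := by
    refine Subtype.ext (Units.ext ?_)
    rw [Subgroup.coe_mul, Units.val_mul]
    simp only [tor]
    rw [Matrix.diagonal_mul_diagonal]
    congr 1
    funext i
    fin_cases i <;> simp
    ring

/-- the first reflection -/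
noncomputable def w1 : GSp4 :=
  ⟨⟨!![0, 0, 1, 0; 0, 1, 0, 0; -1, 0, 0, 0; 0, 0, 0, 1], !![0, 0, -1, 0; 0, 1, 0, 0; 1, 0, 0, 0; 0, 0, 0, 1], by
    ext i j
    fin_cases i <;> fin_cases j <;> simp [Matrix.mul_apply, Fin.sum_univ_four], by
    ext i j
    fin_cases i <;> fin_cases j <;> simp [Matrix.mul_apply, Fin.sum_univ_four]⟩, 1, by
    ext i j
    fin_cases i <;> fin_cases j <;> simp [form, Matrix.mul_apply, Fin.sum_univ_four]⟩

/-- the second reflection -/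
noncomputable def w2 : GSp4 :=
  ⟨⟨!![1, 0, 0, 0; 0, 0, 0, 1; 0, 0, 1, 0; 0, -1, 0, 0], !![1, 0, 0, 0; 0, 0, 0, -1; 0, 0, 1, 0; 0, 1, 0, 0], by
    ext i j
    fin_cases i <;> fin_cases j <;> simp [Matrix.mul_apply, Fin.sum_univ_four], by
    ext i j
    fin_cases i <;> fin_cases j <;> simp [Matrix.mul_apply, Fin.sum_univ_four]⟩, 1, by
    ext i j
    fin_cases i <;> fin_cases j <;> simp [form, Matrix.mul_apply, Fin.sum_univ_four]⟩

theorem w1_torus (g : ℂˣ × ℂˣ × ℂˣ) : torus (g.2.1, g.1, g.2.2) = w1 * torus g * w1⁻¹ := by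
  rw [eq_mul_inv_iff_mul_eq]
  refine Subtype.ext (Units.ext ?_)
  rw [Subgroup.coe_mul, Subgroup.coe_mul, Units.val_mul, Units.val_mul]
  ext i j
  fin_cases i <;> fin_cases j <;>
    simp [torus, tor, w1, Matrix.mul_apply, Fin.sum_univ_four, Matrix.diagonal] <;> ring

theorem w2_torus (g : ℂˣ × ℂˣ × ℂˣ) :
    torus (g.1, g.2.1, g.1 * g.2.1 * g.2.2⁻¹) = w2 * torus g * w2⁻¹ := by
  rw [eq_mul_inv_iff_mul_eq]
  refine Subtype.ext (Units.ext ?_)
  rw [Subgroup.coe_mul, Subgroup.coe_mul, Units.val_mul, Units.val_mul]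
  have h1 := g.1.ne_zero
  have h2 := g.2.1.ne_zero
  have h3 := g.2.2.ne_zero
  ext i j
  fin_cases i <;> fin_cases j <;>
    simp [torus, tor, w2, Matrix.mul_apply, Fin.sum_univ_four, Matrix.diagonal] <;> field_simp

theorem lau_entries (o : Option (Fin 4 × Fin 4)) :
    Pool.Agent.L7h29.GT.Gen.Lau ee fun g : ℂˣ × ℂˣ × ℂˣ =>
      o.elim (((torus g).val.val.det)⁻¹) fun x => (torus g).val.val x.1 x.2 := by
  have key : ∀ (f : (ℂˣ × ℂˣ × ℂˣ) → ℂ) (x : ℤ × ℤ × ℤ), (∀ g, f g = ee x g) →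
      Pool.Agent.L7h29.GT.Gen.Lau ee f := fun f x h => by
    rw [show f = fun g => ee x g from funext h]
    exact Pool.Agent.L7h29.GT.Gen.lau_char chars x
  have key0 : ∀ f : (ℂˣ × ℂˣ × ℂˣ) → ℂ, (∀ g, f g = 0) →
      Pool.Agent.L7h29.GT.Gen.Lau ee f := fun f h => by
    rw [show f = fun _ => 0 from funext h]
    exact Pool.Agent.L7h29.GT.Gen.lau_zero chars
  match o with
  | none =>
    refine key _ (-2, -2, 0) fun g => ?_
    have h1 := g.1.ne_zero
    have h2 := g.2.1.ne_zero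
    have h3 := g.2.2.ne_zero
    rw [ee_apply]
    simp only [Option.elim_none, torus, tor, MonoidHom.coe_mk, OneHom.coe_mk, Matrix.det_diagonal,
      Fin.prod_univ_four]
    simp only [Matrix.cons_val_zero, Matrix.cons_val_one, Matrix.cons_val]
    rw [zpow_neg, zpow_neg, zpow_zero, mul_one, zpow_ofNat, zpow_ofNat]
    field_simp
  | some (i, j) =>
    by_cases hij : i = j
    · subst hij
      fin_cases i
      · exact key _ (1, 0, 0) fun g => by rw [ee_apply]; simp [torus, tor]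
      · exact key _ (0, 0, 1) fun g => by rw [ee_apply]; simp [torus, tor]
      · exact key _ (0, 1, 0) fun g => by rw [ee_apply]; simp [torus, tor]
      · exact key _ (1, 1, -1) fun g => by rw [ee_apply]; simp [torus, tor]
    · refine key0 _ fun g => ?_
      simp only [Option.elim_some, torus, tor, MonoidHom.coe_mk, OneHom.coe_mk]
      exact Matrix.diagonal_apply_ne _ hij

/-- **All `ρ`, for endoscopic forms on `GSp_4` built from forms on `GL_2` with few `|a_p|`**; `J = K = 2` is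
unconditional. -/
theorem result {S : Finset ℕ} {N₀ : ℕ} [NeZero N₀] (ω : DirichletCharacter ℂ N₀)
    (hN₀ : N₀.primeFactors ⊆ S) {α β γ δ : ℕ → ℂˣ} {J K : ℕ}
    (h₁ : FewValuesForm S ω α β J) (h₂ : FewValuesForm S ω γ δ K)
    (hpair : ∀ i ≤ 2 * J, ∀ j ≤ 2 * K, ∀ m : ℤ,
      PairContinues S (fun p => α p) (fun p => β p) (fun p => γ p) (fun p => δ p) i j m)
    (A : ℕ → GSp4)
    (hA : ∀ p : ℕ, p.Prime → p ∉ S →
      (A p).val.val = Matrix.diagonal ![(α p : ℂ), (γ p : ℂ), (β p : ℂ), (δ p : ℂ)])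
    (m : ℕ) (ρ : GSp4 →* GL (Fin m) ℂ) (hρ : IsAlgebraic ρ) :
    ∃ M : ℂ → ℂ, Meromorphic M ∧ ∀ s : ℂ, 1 < s.re → Tendsto (fun X : ℕ =>
      ∏ p ∈ (Finset.range X).filter (fun p => p.Prime ∧ p ∉ S),
        ((1 - (p : ℂ) ^ (-s) • (ρ (A p)).val).det)⁻¹) atTop (𝓝 (M s)) := by
  classical
  have hfam : ∀ {α β : ℕ → ℂˣ} {J : ℕ}, FewValuesForm S ω α β J →
      Pool.Agent.L7h29.GT.Fam S (fun p => α p) (fun p => β p) (2 * J + 1) := by
    intro α β J h
    refine ⟨fun k hk n _ χ => ?_⟩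
    obtain ⟨N, D, N', D', h⟩ := h.symmetric k hk n χ
    exact ⟨N, D, N', D', h.entire.1, h.entire.2.1, h.entire.2.2.1, h.entire.2.2.2, h.order,
      h.ne_zero, h.euler, h.euler', h.functional⟩
  obtain ⟨T, hT⟩ := h₁.few
  obtain ⟨T', hT'⟩ := h₂.few
  obtain ⟨⟨V, hV, hR⟩, hru⟩ := Pool.Agent.L7h29.GT.form hN₀ h₁.central h₁.unitary (hfam h₁) T hT
  obtain ⟨⟨V', hV', hR'⟩, hru'⟩ := Pool.Agent.L7h29.GT.form hN₀ h₂.central h₂.unitary (hfam h₂) T' hT'
  have hna : ∀ p : ℕ, p.Prime → p ∉ S → ‖(α p : ℂ)‖ = 1 := fun p hp hpS => by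
    obtain ⟨n, hn, h1, -⟩ := hru p hp hpS
    exact Complex.norm_eq_one_of_pow_eq_one h1 hn.ne'
  have hnb : ∀ p : ℕ, p.Prime → p ∉ S → ‖(β p : ℂ)‖ = 1 := fun p hp hpS => by
    obtain ⟨n, hn, -, h1⟩ := hru p hp hpS
    exact Complex.norm_eq_one_of_pow_eq_one h1 hn.ne'
  have hnc : ∀ p : ℕ, p.Prime → p ∉ S → ‖(γ p : ℂ)‖ = 1 := fun p hp hpS => by
    obtain ⟨n, hn, h1, -⟩ := hru' p hp hpS
    exact Complex.norm_eq_one_of_pow_eq_one h1 hn.ne'
  have hnd : ∀ p : ℕ, p.Prime → p ∉ S → ‖(δ p : ℂ)‖ = 1 := fun p hp hpS => by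
    obtain ⟨n, hn, -, h1⟩ := hru' p hp hpS
    exact Complex.norm_eq_one_of_pow_eq_one h1 hn.ne'
  have hcd : ∀ p : ℕ, p.Prime → p ∉ S → (α p : ℂ) * β p = γ p * δ p := fun p hp hpS => by
    rw [h₁.central p hp hpS, h₂.central p hp hpS]
  have hcongr : ∀ f ∈ Pool.Agent.L7h29.GT.MerG S, ∀ g : ℕ → ℕ → ℂ,
      (∀ p : ℕ, p.Prime → p ∉ S → ∀ n : ℕ, 1 ≤ n → f p n = g p n) →
        g ∈ Pool.Agent.L7h29.GT.MerG S := fun f hf g hg => Pool.Agent.L7h29.GT.MerG_congr hf hg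
  -- the first pairs
  have hE : ∀ i ≤ 2 * J, ∀ j ≤ 2 * K, ∀ m l : ℤ,
      Pool.Agent.L7h29.GT.EE (fun p => α p) (fun p => β p) i m *
        Pool.Agent.L7h29.GT.EE (fun p => γ p) (fun p => δ p) j l ∈ Pool.Agent.L7h29.GT.MerG S := by
    intro i hi j hj m l
    obtain ⟨M, hM, hlim⟩ := hpair i hi j hj (m + l)
    have hval : ∀ p : ℕ, p.Prime → p ∉ S → ∀ n : ℕ,
        (Pool.Agent.L7h29.GT.EE (fun p => α p) (fun p => β p) i m *
          Pool.Agent.L7h29.GT.EE (fun p => γ p) (fun p => δ p) j l) p n =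
        ∑ x ∈ Finset.range (i + 1) ×ˢ Finset.range (j + 1),
          ((1 : ℕ) : ℂ) * (((α p : ℂ) * β p) ^ (m + l) * ((α p : ℂ) ^ (i - x.1) * (β p : ℂ) ^ x.1) *
            ((γ p : ℂ) ^ (j - x.2) * (δ p : ℂ) ^ x.2)) ^ n := by
      intro p hp hpS n
      simp only [Pi.mul_apply, Pool.Agent.L7h29.GT.EE, Pool.Agent.L7h29.GT.hk]
      have h1 : (γ p : ℂ) ^ n * (δ p : ℂ) ^ n = (α p : ℂ) ^ n * (β p : ℂ) ^ n := by
        rw [← mul_pow, ← mul_pow, hcd p hp hpS]
      have h0 : (α p : ℂ) ^ n * (β p : ℂ) ^ n ≠ 0 :=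
        mul_ne_zero (pow_ne_zero _ (α p).ne_zero) (pow_ne_zero _ (β p).ne_zero)
      have h2 : (((α p : ℂ) * β p) ^ (m + l)) ^ n = ((α p : ℂ) ^ n * (β p : ℂ) ^ n) ^ (m + l) := by
        rw [← mul_pow, ← zpow_natCast, ← zpow_natCast, ← zpow_mul, ← zpow_mul, mul_comm (m + l)]
      rw [h1, Finset.sum_product]
      simp only [mul_pow, h2, Nat.cast_one, one_mul]
      rw [zpow_add₀ h0]
      calc _ = (((α p : ℂ) ^ n * (β p : ℂ) ^ n) ^ m * ((α p : ℂ) ^ n * (β p : ℂ) ^ n) ^ l) *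
            ((∑ x ∈ Finset.range (i + 1), ((α p : ℂ) ^ n) ^ (i - x) * ((β p : ℂ) ^ n) ^ x) *
            ∑ y ∈ Finset.range (j + 1), ((γ p : ℂ) ^ n) ^ (j - y) * ((δ p : ℂ) ^ n) ^ y) := by ring
        _ = _ := by
          rw [Finset.sum_mul_sum, Finset.mul_sum]
          refine Finset.sum_congr rfl fun x _ => ?_
          rw [Finset.mul_sum]
          refine Finset.sum_congr rfl fun y _ => ?_
          simp only [← pow_mul, mul_comm n]
          ring
    have hw : ∀ p : ℕ, p.Prime → p ∉ S → ∀ x ∈ Finset.range (i + 1) ×ˢ Finset.range (j + 1),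
        ‖((α p : ℂ) * β p) ^ (m + l) * ((α p : ℂ) ^ (i - x.1) * (β p : ℂ) ^ x.1) *
            ((γ p : ℂ) ^ (j - x.2) * (δ p : ℂ) ^ x.2)‖ = 1 := by
      intro p hp hpS x _
      simp only [norm_mul, norm_zpow, norm_pow, hna p hp hpS, hnb p hp hpS, hnc p hp hpS,
        hnd p hp hpS, one_pow, one_zpow, mul_one]
    refine ⟨⟨((Finset.range (i + 1) ×ˢ Finset.range (j + 1)).card : ℝ), fun p hp hpS n _ => ?_⟩,
      M, hM, fun s hs => ?_⟩
    · rw [hval p hp hpS n]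
      refine (norm_sum_le _ _).trans ?_
      refine (Finset.sum_le_card_nsmul _ _ 1 fun x hx => ?_).trans (by simp)
      rw [Nat.cast_one, one_mul, norm_pow, hw p hp hpS x hx, one_pow]
    · refine (hlim s hs).congr fun X => ?_
      refine Finset.prod_congr rfl fun p hp => ?_
      rw [Finset.mem_filter] at hp
      rw [Pool.Agent.L7h29.GT.exp_Lp (Finset.range (i + 1) ×ˢ Finset.range (j + 1)) _ (fun _ => 1)
        (hw p hp.2.1 hp.2.2) hp.2.1 hs (fun n _ => hval p hp.2.1 hp.2.2 n), Finset.prod_product]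
      simp only [pow_one]
  have hall := Pool.Agent.L7h29.GT.pair_all hR hR' hV hV' (Pool.Agent.L7h29.GT.MerG S) hcongr hE
  -- the weights of `ρ`
  set τ : (ℂˣ × ℂˣ × ℂˣ) →* Matrix (Fin m) (Fin m) ℂ :=
    (Units.coeHom (Matrix (Fin m) (Fin m) ℂ)).comp (ρ.comp torus) with hτ
  have hlau : ∀ i j : Fin m, Pool.Agent.L7h29.GT.Gen.Lau ee fun g => τ g i j := by
    intro i j
    obtain ⟨P, hP⟩ := hρ i j
    have h1 := Pool.Agent.L7h29.GT.Gen.lau_eval chars
      (fun (o : Option (Fin 4 × Fin 4)) (g : ℂˣ × ℂˣ × ℂˣ) =>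
        o.elim (((torus g).val.val.det)⁻¹) fun x => (torus g).val.val x.1 x.2) lau_entries P
    obtain ⟨t, ht⟩ := h1
    exact ⟨t, fun g => (hP (torus g)).trans (ht g)⟩
  obtain ⟨B, r, hdet, hsym⟩ := Pool.Agent.L7h29.GT.Gen.weights chars τ hlau
  have hs1 := hsym (fun x => (x.2.1, x.1, x.2.2)) (fun g => (g.2.1, g.1, g.2.2)) (ρ w1).val
    (ρ w1)⁻¹.val (fun x => rfl) (fun x g => by
      rw [ee_apply, ee_apply]
      ring) (Units.mul_inv _) (fun g => by
      simp only [hτ, MonoidHom.comp_apply, Units.coeHom_apply]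
      rw [w1_torus, map_mul, map_mul, map_inv, Units.val_mul, Units.val_mul])
  have hs2 := hsym (fun x => (x.1 + x.2.2, x.2.1 + x.2.2, -x.2.2))
    (fun g => (g.1, g.2.1, g.1 * g.2.1 * g.2.2⁻¹)) (ρ w2).val
    (ρ w2)⁻¹.val (fun x => by simp) (fun x g => by
      have h1 := g.1.ne_zero
      have h2 := g.2.1.ne_zero
      rw [ee_apply, ee_apply]
      simp only [Units.val_mul, Units.val_inv_eq_inv_val, mul_zpow, inv_zpow, zpow_neg]
      rw [zpow_add₀ h1, zpow_add₀ h2]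
      ring) (Units.mul_inv _) (fun g => by
      simp only [hτ, MonoidHom.comp_apply, Units.coeHom_apply]
      rw [w2_torus, map_mul, map_mul, map_inv, Units.val_mul, Units.val_mul])
  obtain ⟨-, M, hM, hlim⟩ := Pool.Agent.L7h29.GT.wt3_mem (fun p _ _ => (α p).ne_zero)
    (fun p _ _ => (β p).ne_zero) (fun p _ _ => (γ p).ne_zero) hcd
    (Pool.Agent.L7h29.GT.MerG S) hcongr hall B hs1.1 hs2.1 r hs1.2 hs2.2
  refine ⟨M, hM, fun s hs => (hlim s hs).congr fun X => ?_⟩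
  refine Finset.prod_congr rfl fun p hp => ?_
  rw [Finset.mem_filter] at hp
  rw [Pool.Agent.L7h29.GT.exp_Lp B (fun x => ee x (α p, β p, γ p)) r (fun x _ => by
    rw [ee_apply, norm_mul, norm_mul, norm_zpow, norm_zpow, norm_zpow, hna p hp.2.1 hp.2.2,
      hnb p hp.2.1 hp.2.2, hnc p hp.2.1 hp.2.2]
    simp) hp.2.1 hs (fun n hn => by
    simp only [Finset.sum_apply, nsmul_eq_mul, Pi.mul_apply, Pi.natCast_apply]
    refine Finset.sum_congr rfl fun x _ => ?_
    rw [ee_apply]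
    simp only [Pool.Agent.L7h29.GT.wt3]
    rw [mul_pow, mul_pow, ← zpow_natCast (α p : ℂ), ← zpow_natCast (β p : ℂ),
      ← zpow_natCast (γ p : ℂ), ← zpow_mul, ← zpow_mul, ← zpow_mul,
      ← zpow_natCast ((α p : ℂ) ^ x.1), ← zpow_natCast ((β p : ℂ) ^ x.2.1),
      ← zpow_natCast ((γ p : ℂ) ^ x.2.2), ← zpow_mul, ← zpow_mul, ← zpow_mul,
      mul_comm x.1, mul_comm x.2.1, mul_comm x.2.2])]
  have h1 := hdet (α p, β p, γ p) ((p : ℂ) ^ (-s))
  have h2 : A p = torus (α p, β p, γ p) := by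
    refine Subtype.ext (Units.ext ?_)
    rw [hA p hp.2.1 hp.2.2]
    simp only [torus, tor, MonoidHom.coe_mk, OneHom.coe_mk]
    have h3 : (α p : ℂ) * β p * (γ p : ℂ)⁻¹ = δ p := by
      rw [hcd p hp.2.1 hp.2.2]
      have := (γ p).ne_zero
      field_simp
    rw [h3]
  rw [h2]
  have h3 : (ρ (torus (α p, β p, γ p))).val = τ (α p, β p, γ p) := rfl
  rw [h3, h1, Finset.prod_inv_distrib]

end Pool.Agent.Results.MP_eea520_nt.AllRepresentationsGSp4
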