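import Pool.Agent.L7h29.GT.Lev

/-!
# All representations `ρ` of `ᴸGSp_4 = GSp_4(ℂ)`, for Eisenstein series and Saito-Kurokawa forms over forms with few `|a_p|`

`n = 2`. Let `π_1` be a unitary automorphic representation of `GL_2` over `ℚ` whose central character is a Dirichlet
character `ω`, with Satake parameters `(α_p, β_p)`, `p ∉ S`, and let `χ |.|^{-z}` be a Hecke character, `χ` a Dirichlet
character and `z` any complex number. Let `π` be an automorphic representation of `GSp_4` with the Satake parameters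

* `A_p = diag (α_p, t_p, β_p, α_p β_p / t_p)` (Eisenstein series and residual and cuspidal representations attached to
  one maximal parabolic subgroup; for `t_p = p^{1/2} χ(p)`, `ω = χ²`, the Saito-Kurokawa forms and their twists, with
  the spin L-function `L(s - 1/2, χ) L(s + 1/2, χ) L(s, π_1)`), or
* `A_p = diag (α_p, β_p, t_p / α_p, t_p / β_p)` (the other maximal parabolic subgroup),

in `ᴸGSp_4 = GSpin_5(ℂ) = GSp_4(ℂ)`, where `t_p = χ(p) p^z`.

**Theorem.** Assume that the absolute values of the Hecke eigenvalues of `π_1` take at most `J` nonzero values outside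
a finite set of primes, that for `k ≤ 2 J` the Euler products `L(s, Sym^k π_1 ⊗ χ)` have a meromorphic continuation for
all Dirichlet characters `χ`, and that for the odd `k = 2 j + 1 ≤ 2 J + 1` and the twists by `ψ ω^{-j} χ`, with one
fixed Dirichlet character `ψ` and all `χ` of modulus prime to the one of `ψ`, the continuation is a quotient of entire
functions of order at most `3/2` with a functional equation. Then for **every** finite-dimensional algebraic
representation `ρ` of `GSp_4(ℂ)` the Euler product `L_S(s, π, ρ) = ∏_{p ∉ S} det (1 - ρ(A_p) p^{-s})⁻¹`, which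
converges in some right half-plane, has a meromorphic continuation to `ℂ`.

For `J = 4` the assumptions are theorems for every unitary cuspidal `π_1`: `k ≤ 8` by Rankin-Selberg theory and the
automorphy of `Sym^k π_1`, `k ≤ 4` (Gelbart-Jacquet, Kim-Shahidi, Kim), and `k ≤ 9` for the highly ramified twists by
the Langlands-Shahidi method (Kim-Shahidi; Gelbart-Shahidi). So this applies to Maass forms `π_1` with the values
`{2, 1, (√5 + 1)/2, (√5 - 1)/2}` of the icosahedral type, for which no Galois representation is known.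

Idea. By the theorem on real relations between L-functions the set of the values of `|a_p|²`, with `0`, is closed
under powers of the `A_p`, and the characters of `GL_2(ℂ)` are integral combinations of those of `Sym^k ⊗ det^m`,
`k ≤ 2 J`, on these classes. The restriction of `ρ` to the Levi subgroup `GL_2(ℂ) × GL_1(ℂ)` decomposes into
representations of `GL_2(ℂ)` twisted by powers of the character of the second factor, so the L-function of `ρ` is a
product of shifts `L(s - l z, Sym^k π_1 ⊗ ω^m χ^l)` with integral exponents.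
-/

set_option autoImplicit false

open Filter Topology ComplexConjugate

namespace Pool.Agent.Results.MP_eea520_nt.EisensteinFormsGSp4

/-- `∏_{m ∈ μ} Γ_ℝ(s + m)⁻¹`, `Γ_ℝ(s) = π^{-s/2} Γ(s/2)` -/
noncomputable def invGamma (μ : List ℂ) (s : ℂ) : ℂ :=
  (μ.map fun m => (Complex.Gammaℝ (s + m))⁻¹).prod

/-- `∏_{(p, b) ∈ l} (1 - b p^{-s})` -/
noncomputable def finEuler (l : List (ℕ × ℂ)) (s : ℂ) : ℂ :=
  (l.map fun x => 1 - x.2 * (x.1 : ℂ) ^ (-s)).prod

/-- The Euler products `L_S(s, Sym^k π ⊗ χ)`, with the parameters `χ(p) α_p^{k - i} β_p^i`, and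
`L_S(s, (Sym^k π ⊗ χ)^∨)`, with the inverse parameters, extend to the meromorphic functions `N/D` and `N'/D'` on `ℂ`,
and there is a functional equation between them. -/
structure SymmetricPowerL (S : Finset ℕ) (α β χ : ℕ → ℂ) (k : ℕ) (N D N' D' : ℂ → ℂ) : Prop where
  /-- the four functions are entire -/
  entire : Differentiable ℂ N ∧ Differentiable ℂ D ∧ Differentiable ℂ N' ∧ Differentiable ℂ D'
  /-- of order at most `3/2` -/
  order : ∃ C : ℝ, ∀ s, ‖N s‖ ≤ Real.exp (C * (1 + ‖s‖) ^ (3 / 2 : ℝ)) ∧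
    ‖D s‖ ≤ Real.exp (C * (1 + ‖s‖) ^ (3 / 2 : ℝ)) ∧
    ‖N' s‖ ≤ Real.exp (C * (1 + ‖s‖) ^ (3 / 2 : ℝ)) ∧
    ‖D' s‖ ≤ Real.exp (C * (1 + ‖s‖) ^ (3 / 2 : ℝ))
  /-- the denominators have no zeros in `Re s > 1` -/
  ne_zero : ∀ s : ℂ, 1 < s.re → D s ≠ 0 ∧ D' s ≠ 0
  /-- the partial Euler products converge to `N/D` in `Re s > 1` -/
  euler : ∀ s : ℂ, 1 < s.re → Tendsto (fun X : ℕ =>
    ∏ p ∈ (Finset.range X).filter (fun p => p.Prime ∧ p ∉ S),
      ∏ i ∈ Finset.range (k + 1), (1 - χ p * (α p ^ (k - i) * β p ^ i) * (p : ℂ) ^ (-s))⁻¹) atTop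
      (𝓝 (N s / D s))
  /-- the partial Euler products of the contragredient converge to `N'/D'` in `Re s > 1` -/
  euler' : ∀ s : ℂ, 1 < s.re → Tendsto (fun X : ℕ =>
    ∏ p ∈ (Finset.range X).filter (fun p => p.Prime ∧ p ∉ S),
      ∏ i ∈ Finset.range (k + 1),
        (1 - (χ p * (α p ^ (k - i) * β p ^ i))⁻¹ * (p : ℂ) ^ (-s))⁻¹) atTop (𝓝 (N' s / D' s))
  /-- functional equation: with `Λ(s) = q^s · (invGamma μ s)⁻¹ · finEuler l' s / finEuler l s · N s / D s` and
  `Λ'(s) = q^s · (invGamma μ' s)⁻¹ · finEuler k' s / finEuler k s · N' s / D' s` it says `Λ(s) = ε Λ'(1 - s)` -/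
  functional : ∃ (μ μ' : List ℂ) (l l' k k' : List (ℕ × ℂ)) (q : ℝ) (ε : ℂ), 0 < q ∧ ε ≠ 0 ∧
    (∀ x ∈ l, x.1.Prime ∧ x.1 ∈ S) ∧ (∀ x ∈ l', x.1.Prime ∧ x.1 ∈ S) ∧
    (∀ x ∈ k, x.1.Prime ∧ x.1 ∈ S) ∧ (∀ x ∈ k', x.1.Prime ∧ x.1 ∈ S) ∧
    ∀ s, (q : ℂ) ^ s * invGamma μ' (1 - s) * finEuler k (1 - s) * finEuler l' s * (N s * D' (1 - s)) =
      ε * (q : ℂ) ^ (1 - s) * invGamma μ s * finEuler l s * finEuler k' (1 - s) * (N' (1 - s) * D s)

/-- the Euler product `L_S(s, Sym^k π ⊗ χ)` extends to a meromorphic function on `ℂ` -/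
def Continues (S : Finset ℕ) (α β χ : ℕ → ℂ) (k : ℕ) : Prop :=
  ∃ M : ℂ → ℂ, Meromorphic M ∧ ∀ s : ℂ, 1 < s.re → Tendsto (fun X : ℕ =>
    ∏ p ∈ (Finset.range X).filter (fun p => p.Prime ∧ p ∉ S),
      ∏ i ∈ Finset.range (k + 1), (1 - χ p * (α p ^ (k - i) * β p ^ i) * (p : ℂ) ^ (-s))⁻¹) atTop
      (𝓝 (M s))

/-- A unitary form on `GL_2` with central character `ω` and Satake parameters `(α_p, β_p)`, whose symmetric powers
have the expected properties (up to `2 J`: continuation for all twists; the odd ones up to `2 J + 1`: functional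
equations for the twists by `ψ ω^{-j} χ`), and such that `|a_p|` takes at most `J` nonzero values outside a finite
set `T` of primes. -/
structure FewValuesForm (S : Finset ℕ) {N₀ M₀ : ℕ} (ω : DirichletCharacter ℂ N₀)
    (ψ : DirichletCharacter ℂ M₀) (α β : ℕ → ℂˣ) (J : ℕ) : Prop where
  /-- the central character -/
  central : ∀ p : ℕ, p.Prime → p ∉ S → (α p : ℂ) * β p = ω (p : ZMod N₀)
  /-- unitarity -/
  unitary : ∀ p : ℕ, p.Prime → p ∉ S → conj ((α p : ℂ) + β p) * ω (p : ZMod N₀) = α p + β p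
  /-- continuation of the symmetric powers up to `2 J` -/
  continues : ∀ k ≤ 2 * J, ∀ (n : ℕ) [NeZero n] (χ : DirichletCharacter ℂ n),
    Continues (S ∪ n.primeFactors) (fun p => α p) (fun p => β p) (fun p => χ (p : ZMod n)) k
  /-- functional equations of the odd symmetric powers up to `2 J + 1` -/
  symmetric : ∀ j ≤ J, ∀ (n : ℕ) [NeZero n], n.Coprime M₀ → ∀ χ : DirichletCharacter ℂ n,
    ∃ N D N' D' : ℂ → ℂ, SymmetricPowerL (S ∪ n.primeFactors) (fun p => α p) (fun p => β p)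
      (fun p => ψ (p : ZMod M₀) * χ (p : ZMod n) * (ω (p : ZMod N₀) ^ j)⁻¹) (2 * j + 1) N D N' D'
  /-- few absolute values -/
  few : ∃ T : Finset ℕ,
    (((fun p : ℕ => ‖(α p : ℂ) + β p‖) '' {p : ℕ | p.Prime ∧ p ∉ T}) \ {0}).encard ≤ J

/-- the alternating form -/
def form : Matrix (Fin 4) (Fin 4) ℂ := !![0, 0, 1, 0; 0, 0, 0, 1; -1, 0, 0, 0; 0, -1, 0, 0]

/-- the group `GSp_4(ℂ)` of the matrices `U` with `ᵗU J U = λ J` for some `λ ≠ 0` -/
def GSp4 : Subgroup (GL (Fin 4) ℂ) where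
  carrier := {U | ∃ c : ℂˣ, U.val.transpose * form * U.val = (c : ℂ) • form}
  one_mem' := ⟨1, by simp⟩
  mul_mem' := by
    rintro U V ⟨c, hc⟩ ⟨d, hd⟩
    refine ⟨c * d, ?_⟩
    rw [Units.val_mul, Matrix.transpose_mul]
    calc V.val.transpose * U.val.transpose * form * (U.val * V.val) =
        V.val.transpose * (U.val.transpose * form * U.val) * V.val := by simp only [mul_assoc]
      _ = _ := by
        rw [hc, Matrix.mul_smul, Matrix.smul_mul, hd, smul_smul]
        push_cast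
        rfl
  inv_mem' := by
    rintro U ⟨c, hc⟩
    refine ⟨c⁻¹, ?_⟩
    have h1 : (U⁻¹).val.transpose * U.val.transpose = 1 := by
      rw [← Matrix.transpose_mul, Units.mul_inv, Matrix.transpose_one]
    have h2 : form = (c⁻¹ : ℂˣ) • (U.val.transpose * form * U.val) := by
      rw [hc, Units.smul_def, smul_smul, Units.inv_mul, one_smul]
    calc (U⁻¹).val.transpose * form * (U⁻¹).val =
        (U⁻¹).val.transpose * ((c⁻¹ : ℂˣ) • (U.val.transpose * form * U.val)) * (U⁻¹).val := by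
          rw [← h2]
      _ = (c⁻¹ : ℂˣ) • (((U⁻¹).val.transpose * U.val.transpose) * form * (U.val * (U⁻¹).val)) := by
          rw [Matrix.mul_smul, Matrix.smul_mul]
          simp only [mul_assoc]
      _ = _ := by
          rw [h1, Units.mul_inv, one_mul, mul_one, Units.smul_def]

/-- `ρ` is algebraic: the entries of `ρ(g)` are polynomials in the entries of `g` and `(det g)⁻¹` -/
def IsAlgebraic {m : ℕ} (ρ : GSp4 →* GL (Fin m) ℂ) : Prop :=
  ∀ i j : Fin m, ∃ P : MvPolynomial (Option (Fin 4 × Fin 4)) ℂ, ∀ g : GSp4,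
    (ρ g).val i j = MvPolynomial.eval
      (fun o : Option (Fin 4 × Fin 4) => o.elim ((g.val.val.det)⁻¹) fun x => g.val.val x.1 x.2) P

/-! ### the tori -/

/-- the torus `ℂˣ × ℂˣ × ℂˣ` -/
abbrev Tr : Type := Pool.Agent.L7h29.GT.TT 1

/-- the diagonal matrix `diag (a, t, b, a b / t)` -/
noncomputable def tor (g : Tr) : GL (Fin 4) ℂ :=
  ⟨Matrix.diagonal ![(g.1 : ℂ), g.2.2 0, g.2.1, g.1 * g.2.1 * (g.2.2 0 : ℂ)⁻¹],
    Matrix.diagonal ![(g.1 : ℂ)⁻¹, (g.2.2 0 : ℂ)⁻¹, (g.2.1 : ℂ)⁻¹, (g.1 : ℂ)⁻¹ * (g.2.1 : ℂ)⁻¹ * g.2.2 0], by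
    rw [Matrix.diagonal_mul_diagonal, ← Matrix.diagonal_one]
    congr 1
    funext i
    have h1 := g.1.ne_zero
    have h2 := g.2.1.ne_zero
    have h3 := (g.2.2 0).ne_zero
    fin_cases i <;> simp <;> field_simp, by
    rw [Matrix.diagonal_mul_diagonal, ← Matrix.diagonal_one]
    congr 1
    funext i
    have h1 := g.1.ne_zero
    have h2 := g.2.1.ne_zero
    have h3 := (g.2.2 0).ne_zero
    fin_cases i <;> simp <;> field_simp⟩

/-- the diagonal matrix `diag (a, b, t / a, t / b)` -/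
noncomputable def tor' (g : Tr) : GL (Fin 4) ℂ :=
  ⟨Matrix.diagonal ![(g.1 : ℂ), g.2.1, g.2.2 0 * (g.1 : ℂ)⁻¹, g.2.2 0 * (g.2.1 : ℂ)⁻¹],
    Matrix.diagonal ![(g.1 : ℂ)⁻¹, (g.2.1 : ℂ)⁻¹, (g.2.2 0 : ℂ)⁻¹ * g.1, (g.2.2 0 : ℂ)⁻¹ * g.2.1], by
    rw [Matrix.diagonal_mul_diagonal, ← Matrix.diagonal_one]
    congr 1
    funext i
    have h1 := g.1.ne_zero
    have h2 := g.2.1.ne_zero
    have h3 := (g.2.2 0).ne_zero
    fin_cases i <;> simp <;> field_simp, by
    rw [Matrix.diagonal_mul_diagonal, ← Matrix.diagonal_one]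
    congr 1
    funext i
    have h1 := g.1.ne_zero
    have h2 := g.2.1.ne_zero
    have h3 := (g.2.2 0).ne_zero
    fin_cases i <;> simp <;> field_simp⟩

theorem tor_mem (g : Tr) : tor g ∈ GSp4 := by
  refine ⟨g.1 * g.2.1, ?_⟩
  have h3 := (g.2.2 0).ne_zero
  ext i j
  fin_cases i <;> fin_cases j <;>
    simp [tor, form, Matrix.mul_apply, Fin.sum_univ_four, Matrix.diagonal] <;> field_simp

theorem tor'_mem (g : Tr) : tor' g ∈ GSp4 := by
  refine ⟨g.2.2 0, ?_⟩
  have h1 := g.1.ne_zero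
  have h2 := g.2.1.ne_zero
  ext i j
  fin_cases i <;> fin_cases j <;>
    simp [tor', form, Matrix.mul_apply, Fin.sum_univ_four, Matrix.diagonal] <;> field_simp

/-- the first torus in `GSp_4` -/
noncomputable def torus : Tr →* GSp4 where
  toFun g := ⟨tor g, tor_mem g⟩
  map_one' := by
    refine Subtype.ext (Units.ext ?_)
    simp only [tor]
    rw [Subgroup.coe_one, Units.val_one, ← Matrix.diagonal_one]
    congr 1
    funext i
    fin_cases i <;> simp
  map_mul' g h := by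
    refine Subtype.ext (Units.ext ?_)
    rw [Subgroup.coe_mul, Units.val_mul]
    simp only [tor]
    rw [Matrix.diagonal_mul_diagonal]
    congr 1
    funext i
    fin_cases i <;> simp
    ring

/-- the second torus in `GSp_4` -/
noncomputable def torus' : Tr →* GSp4 where
  toFun g := ⟨tor' g, tor'_mem g⟩
  map_one' := by
    refine Subtype.ext (Units.ext ?_)
    simp only [tor']
    rw [Subgroup.coe_one, Units.val_one, ← Matrix.diagonal_one]
    congr 1
    funext i
    fin_cases i <;> simp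
  map_mul' g h := by
    refine Subtype.ext (Units.ext ?_)
    rw [Subgroup.coe_mul, Units.val_mul]
    simp only [tor']
    rw [Matrix.diagonal_mul_diagonal]
    congr 1
    funext i
    fin_cases i <;> simp <;> ring

/-- the first reflection -/
noncomputable def w1 : GSp4 :=
  ⟨⟨!![0, 0, 1, 0; 0, 1, 0, 0; -1, 0, 0, 0; 0, 0, 0, 1], !![0, 0, -1, 0; 0, 1, 0, 0; 1, 0, 0, 0; 0, 0, 0, 1], by
    ext i j
    fin_cases i <;> fin_cases j <;> simp [Matrix.mul_apply, Fin.sum_univ_four], by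
    ext i j
    fin_cases i <;> fin_cases j <;> simp [Matrix.mul_apply, Fin.sum_univ_four]⟩, 1, by
    ext i j
    fin_cases i <;> fin_cases j <;> simp [form, Matrix.mul_apply, Fin.sum_univ_four]⟩

/-- the second reflection -/
noncomputable def w2 : GSp4 :=
  ⟨⟨!![0, 1, 0, 0; 1, 0, 0, 0; 0, 0, 0, 1; 0, 0, 1, 0], !![0, 1, 0, 0; 1, 0, 0, 0; 0, 0, 0, 1; 0, 0, 1, 0], by
    ext i j
    fin_cases i <;> fin_cases j <;> simp [Matrix.mul_apply, Fin.sum_univ_four], by
    ext i j
    fin_cases i <;> fin_cases j <;> simp [Matrix.mul_apply, Fin.sum_univ_four]⟩, 1, by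
    ext i j
    fin_cases i <;> fin_cases j <;> simp [form, Matrix.mul_apply, Fin.sum_univ_four]⟩

theorem w1_torus (g : Tr) : torus (g.2.1, g.1, g.2.2) = w1 * torus g * w1⁻¹ := by
  rw [eq_mul_inv_iff_mul_eq]
  refine Subtype.ext (Units.ext ?_)
  rw [Subgroup.coe_mul, Subgroup.coe_mul, Units.val_mul, Units.val_mul]
  ext i j
  fin_cases i <;> fin_cases j <;>
    simp [torus, tor, w1, Matrix.mul_apply, Fin.sum_univ_four, Matrix.diagonal] <;> ring

theorem w2_torus (g : Tr) : torus' (g.2.1, g.1, g.2.2) = w2 * torus' g * w2⁻¹ := by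
  rw [eq_mul_inv_iff_mul_eq]
  refine Subtype.ext (Units.ext ?_)
  rw [Subgroup.coe_mul, Subgroup.coe_mul, Units.val_mul, Units.val_mul]
  ext i j
  fin_cases i <;> fin_cases j <;>
    simp [torus', tor', w2, Matrix.mul_apply, Fin.sum_univ_four, Matrix.diagonal]

theorem key {f : Tr → ℂ} (x : Pool.Agent.L7h29.GT.LL 1)
    (h : ∀ g, f g = Pool.Agent.L7h29.GT.er x g) : Pool.Agent.L7h29.GT.Gen.Lau
      Pool.Agent.L7h29.GT.er f := by
  rw [show f = fun g => Pool.Agent.L7h29.GT.er x g from funext h]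
  exact Pool.Agent.L7h29.GT.Gen.lau_char Pool.Agent.L7h29.GT.chars_er x

theorem key0 {f : Tr → ℂ} (h : ∀ g, f g = 0) : Pool.Agent.L7h29.GT.Gen.Lau
      Pool.Agent.L7h29.GT.er f := by
  rw [show f = fun _ => 0 from funext h]
  exact Pool.Agent.L7h29.GT.Gen.lau_zero Pool.Agent.L7h29.GT.chars_er

theorem lau_entries (o : Option (Fin 4 × Fin 4)) :
    Pool.Agent.L7h29.GT.Gen.Lau Pool.Agent.L7h29.GT.er fun g : Tr =>
      o.elim (((torus g).val.val.det)⁻¹) fun x => (torus g).val.val x.1 x.2 := by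
  match o with
  | none =>
    refine key (-2, -2, fun _ => 0) fun g => ?_
    have h1 := g.1.ne_zero
    have h2 := g.2.1.ne_zero
    have h3 := (g.2.2 0).ne_zero
    rw [Pool.Agent.L7h29.GT.er_apply]
    simp only [Option.elim_none, torus, tor, MonoidHom.coe_mk, OneHom.coe_mk, Matrix.det_diagonal,
      Fin.prod_univ_four]
    simp only [Matrix.cons_val_zero, Matrix.cons_val_one, Matrix.cons_val]
    rw [zpow_neg, zpow_neg, zpow_ofNat, zpow_ofNat]
    simp only [Finset.univ_unique, Fin.default_eq_zero, zpow_zero, Finset.prod_const_one, mul_one]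
    field_simp
  | some (i, j) =>
    by_cases hij : i = j
    · subst hij
      fin_cases i
      · exact key (1, 0, fun _ => 0) fun g => by
          rw [Pool.Agent.L7h29.GT.er_apply]; simp [torus, tor]
      · exact key (0, 0, fun _ => 1) fun g => by
          rw [Pool.Agent.L7h29.GT.er_apply]; simp [torus, tor]
      · exact key (0, 1, fun _ => 0) fun g => by
          rw [Pool.Agent.L7h29.GT.er_apply]; simp [torus, tor]
      · exact key (1, 1, fun _ => -1) fun g => by
          rw [Pool.Agent.L7h29.GT.er_apply]; simp [torus, tor]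
    · refine key0 fun g => ?_
      simp only [Option.elim_some, torus, tor, MonoidHom.coe_mk, OneHom.coe_mk]
      exact Matrix.diagonal_apply_ne _ hij

theorem lau_entries' (o : Option (Fin 4 × Fin 4)) :
    Pool.Agent.L7h29.GT.Gen.Lau Pool.Agent.L7h29.GT.er fun g : Tr =>
      o.elim (((torus' g).val.val.det)⁻¹) fun x => (torus' g).val.val x.1 x.2 := by
  match o with
  | none =>
    refine key (0, 0, fun _ => -2) fun g => ?_
    have h1 := g.1.ne_zero
    have h2 := g.2.1.ne_zero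
    have h3 := (g.2.2 0).ne_zero
    rw [Pool.Agent.L7h29.GT.er_apply]
    simp only [Option.elim_none, torus', tor', MonoidHom.coe_mk, OneHom.coe_mk, Matrix.det_diagonal,
      Fin.prod_univ_four]
    simp only [Matrix.cons_val_zero, Matrix.cons_val_one, Matrix.cons_val]
    simp only [Finset.univ_unique, Fin.default_eq_zero, zpow_zero, one_mul,
      Finset.prod_singleton]
    rw [zpow_neg, zpow_ofNat]
    field_simp
  | some (i, j) =>
    by_cases hij : i = j
    · subst hij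
      fin_cases i
      · exact key (1, 0, fun _ => 0) fun g => by
          rw [Pool.Agent.L7h29.GT.er_apply]; simp [torus', tor']
      · exact key (0, 1, fun _ => 0) fun g => by
          rw [Pool.Agent.L7h29.GT.er_apply]; simp [torus', tor']
      · exact key (-1, 0, fun _ => 1) fun g => by
          rw [Pool.Agent.L7h29.GT.er_apply]; simp [torus', tor', mul_comm]
      · exact key (0, -1, fun _ => 1) fun g => by
          rw [Pool.Agent.L7h29.GT.er_apply]; simp [torus', tor', mul_comm]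
    · refine key0 fun g => ?_
      simp only [Option.elim_some, torus', tor', MonoidHom.coe_mk, OneHom.coe_mk]
      exact Matrix.diagonal_apply_ne _ hij

/-- **All `ρ`, for Eisenstein series and Saito-Kurokawa forms on `GSp_4` over forms on `GL_2` with few `|a_p|`**;
`J = 4` is unconditional. -/
theorem result {S : Finset ℕ} {N₀ N₁ M₀ : ℕ} [NeZero N₀] [NeZero N₁] [NeZero M₀]
    (ω : DirichletCharacter ℂ N₀) (χ : DirichletCharacter ℂ N₁) (ψ : DirichletCharacter ℂ M₀)
    (hN₀ : N₀.primeFactors ⊆ S) (hN₁ : N₁.primeFactors ⊆ S) (hM₀ : M₀.primeFactors ⊆ S)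
    {α β : ℕ → ℂˣ} {J : ℕ} (h : FewValuesForm S ω ψ α β J) (z : ℂ) (A : ℕ → GSp4)
    (hA : (∀ p : ℕ, p.Prime → p ∉ S → (A p).val.val = Matrix.diagonal ![(α p : ℂ),
        χ (p : ZMod N₁) * (p : ℂ) ^ z, β p, α p * β p / (χ (p : ZMod N₁) * (p : ℂ) ^ z)]) ∨
      (∀ p : ℕ, p.Prime → p ∉ S → (A p).val.val = Matrix.diagonal ![(α p : ℂ), β p,
        χ (p : ZMod N₁) * (p : ℂ) ^ z / α p, χ (p : ZMod N₁) * (p : ℂ) ^ z / β p]))
    (m : ℕ) (ρ : GSp4 →* GL (Fin m) ℂ) (hρ : IsAlgebraic ρ) :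
    ∃ (σ : ℝ) (M : ℂ → ℂ), Meromorphic M ∧ ∀ s : ℂ, σ < s.re → Tendsto (fun X : ℕ =>
      ∏ p ∈ (Finset.range X).filter (fun p => p.Prime ∧ p ∉ S),
        ((1 - (p : ℂ) ^ (-s) • (ρ (A p)).val).det)⁻¹) atTop (𝓝 (M s)) := by
  classical
  have hn1 := NeZero.ne N₁
  obtain ⟨T, hT⟩ := h.few
  have hab := h.central
  obtain ⟨⟨V, hV, hR⟩, hroot⟩ := Pool.Agent.L7h29.GT.form' hN₀ hab h.unitary (ψ := ψ) hM₀ (J := J) (by
    intro j hj n _ hn χ
    obtain ⟨N, D, N', D', h⟩ := h.symmetric j hj n hn χ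
    have h1 : Pool.Agent.L7h29.GT.DL (S ∪ n.primeFactors) (2 * j + 2)
        (Pool.Agent.L7h29.GT.sb (fun p => α p) (fun p => β p) (fun p => ψ (p : ZMod M₀) *
          χ (p : ZMod n) * (ω (p : ZMod N₀) ^ j)⁻¹) (2 * j + 1)) N D N' D' :=
      ⟨h.entire.1, h.entire.2.1, h.entire.2.2.1, h.entire.2.2.2, h.order,
        h.ne_zero, h.euler, h.euler', h.functional⟩
    refine ⟨N, D, N', D', h1.congr fun p hp hpS i _ => ?_⟩
    rw [Finset.mem_union, not_or] at hpS
    unfold Pool.Agent.L7h29.GT.sb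
    simp only [hab p hp hpS.1]) T hT
  have hna : ∀ p : ℕ, p.Prime → p ∉ S → ‖(α p : ℂ)‖ = 1 := fun p hp hpS => by
    obtain ⟨n, hn, h1, -⟩ := hroot p hp hpS
    exact Complex.norm_eq_one_of_pow_eq_one h1 hn.ne'
  have hnb : ∀ p : ℕ, p.Prime → p ∉ S → ‖(β p : ℂ)‖ = 1 := fun p hp hpS => by
    obtain ⟨n, hn, -, h1⟩ := hroot p hp hpS
    exact Complex.norm_eq_one_of_pow_eq_one h1 hn.ne'
  have ht0 : ∀ p : ℕ, p.Prime → p ∉ S → χ (p : ZMod N₁) * (p : ℂ) ^ z ≠ 0 := by
    intro p hp hpS h0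
    have h1 := Pool.Agent.L7h29.GT.chr_norm χ (Pool.Agent.L7h29.GT.cop hp hn1 fun h3 => hpS (hN₁ h3))
    rcases mul_eq_zero.1 h0 with h2 | h2
    · rw [h2, norm_zero] at h1
      exact zero_ne_one h1
    · have hp0 : (p : ℂ) ≠ 0 := by exact_mod_cast hp.ne_zero
      rw [Complex.cpow_eq_zero_iff] at h2
      exact hp0 h2.1
  set t : ℕ → Fin 1 → ℂˣ := fun p _ =>
    if h : χ (p : ZMod N₁) * (p : ℂ) ^ z ≠ 0 then Units.mk0 _ h else 1 with ht
  have htv : ∀ p : ℕ, p.Prime → p ∉ S → ∀ i, (t p i : ℂ) = χ (p : ZMod N₁) * (p : ℂ) ^ z := by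
    intro p hp hpS i
    rw [ht]
    simp only
    rw [dif_pos (ht0 p hp hpS), Units.val_mk0]
  have main : ∀ (T' : Tr →* GSp4) (w : GSp4),
      (∀ o : Option (Fin 4 × Fin 4), Pool.Agent.L7h29.GT.Gen.Lau Pool.Agent.L7h29.GT.er
        fun g : Tr => o.elim (((T' g).val.val.det)⁻¹) fun x => (T' g).val.val x.1 x.2) →
      (∀ g : Tr, T' (g.2.1, g.1, g.2.2) = w * T' g * w⁻¹) →
      (∀ p : ℕ, p.Prime → p ∉ S → A p = T' (α p, β p, t p)) →
      ∃ (σ : ℝ) (M : ℂ → ℂ), Meromorphic M ∧ ∀ s : ℂ, σ < s.re → Tendsto (fun X : ℕ =>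
        ∏ p ∈ (Finset.range X).filter (fun p => p.Prime ∧ p ∉ S),
          ((1 - (p : ℂ) ^ (-s) • (ρ (A p)).val).det)⁻¹) atTop (𝓝 (M s)) := by
    intro T' w hlau hw hT'
    set τ : Tr →* Matrix (Fin m) (Fin m) ℂ :=
      (Units.coeHom (Matrix (Fin m) (Fin m) ℂ)).comp (ρ.comp T') with hτ
    obtain ⟨σ, M, hM, hlim⟩ := Pool.Agent.L7h29.GT.lev hN₀ hN₁ hab hV hR hna hnb
      (fun k hk n _ χ' => h.continues k hk n χ') (fun _ => χ) (fun _ => z) t
      (fun p hp hpS i => htv p hp hpS i) τ (fun i j => by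
        obtain ⟨P, hP⟩ := hρ i j
        obtain ⟨u, hu⟩ := Pool.Agent.L7h29.GT.Gen.lau_eval Pool.Agent.L7h29.GT.chars_er
          (fun (o : Option (Fin 4 × Fin 4)) (g : Tr) =>
            o.elim (((T' g).val.val.det)⁻¹) fun x => (T' g).val.val x.1 x.2) hlau P
        exact ⟨u, fun g => (hP (T' g)).trans (hu g)⟩) (ρ w).val (ρ w)⁻¹.val (Units.mul_inv _)
      (fun g => by
        simp only [hτ, MonoidHom.comp_apply, Units.coeHom_apply]
        rw [hw, map_mul, map_mul, map_inv, Units.val_mul, Units.val_mul])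
    refine ⟨σ, M, hM, fun s hs => (hlim s hs).congr fun X => ?_⟩
    refine Finset.prod_congr rfl fun p hp => ?_
    rw [Finset.mem_filter] at hp
    rw [hT' p hp.2.1 hp.2.2]
    rfl
  rcases hA with hA | hA
  · refine main torus w1 lau_entries w1_torus fun p hp hpS => ?_
    refine Subtype.ext (Units.ext ?_)
    rw [hA p hp hpS]
    simp only [torus, tor, MonoidHom.coe_mk, OneHom.coe_mk, htv p hp hpS, div_eq_mul_inv]
  · refine main torus' w2 lau_entries' w2_torus fun p hp hpS => ?_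
    refine Subtype.ext (Units.ext ?_)
    rw [hA p hp hpS]
    simp only [torus', tor', MonoidHom.coe_mk, OneHom.coe_mk, htv p hp hpS, div_eq_mul_inv]

end Pool.Agent.Results.MP_eea520_nt.EisensteinFormsGSp4
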