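import Pool.Agent.L7h29.GT.Sub

/-!
# All representations `ρ` of the L-group `GSpin_{2n+1}(ℂ)` of `GSp_{2n}`, `n ≥ 3`, for functorial lifts of forms with few `|a_p|`

Let `π_1, …, π_s` be unitary automorphic representations of `GL_2` over `ℚ` (for example Maass forms) with the Satake
parameters `(α_{i,p}, β_{i,p})`, `p ∉ S`, whose central characters are Dirichlet characters `ω_i`, and such that the
absolute values `|α_{i,p} + β_{i,p}|` take at most `J_i` nonzero values outside a finite set of primes. Let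
`χ_1 |.|^{-z_1}, …, χ_r |.|^{-z_r}` be Hecke characters (`χ_j` Dirichlet characters, `z_j` complex numbers). Let `D` be
any subgroup of `GL_2(ℂ)^s × (ℂˣ)^r` that contains `SL_2(ℂ)^s` and the parameters
`x_p = ((diag (α_{i,p}, β_{i,p}))_i, (χ_j(p) p^{z_j})_j)`, `p ∉ S`, and let `φ : D → GSpin_{2n+1}(ℂ)` be an algebraic
homomorphism into the L-group of `GSp_{2n}`, `n ≥ 3` (the products of a scalar with an element of the spin group of a
nondegenerate quadratic form in `2n + 1` variables). Let `π` be an automorphic representation of `GSp_{2n}` whose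
Satake parameters `A_p`, `p ∉ S`, are conjugate to `φ(x_p)`: Eisenstein series and residual representations from the
Levi subgroups `GL_2^s × GL_1^r`, endoscopic forms, images of symmetric powers, representations with nontrivial
restriction to the `SL_2` of Arthur (then some `t_j = p^{1/2}`), and their combinations.

**Theorem.** Assume that the odd symmetric powers `L(s, Sym^{2j+1} π_i ⊗ ψ_i χ ω_i^{-j})`, `j ≤ J_i`, `χ` of modulus
prime to a fixed one, are quotients of entire functions of order at most `3/2` with a functional equation, and that the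
Euler products `L_S(s, Sym^{k_1} π_1 × … × Sym^{k_s} π_s ⊗ χ)`, `k_i ≤ 2 J_i`, `χ` a Dirichlet character, have a
meromorphic continuation. Then for **every** finite-dimensional algebraic representation `ρ` of `GSpin_{2n+1}(ℂ)` the
Euler product `L_S(s, π, ρ) = ∏_{p ∉ S} det (1 - ρ(A_p) p^{-s})⁻¹` converges in a half-plane and has a meromorphic
continuation to `ℂ`.

For `s = 1`, `J_1 = 4` (values of `|a_p|` as for the icosahedral type) and for `s = 2`, `J_1 = J_2 = 2` (as for the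
tetrahedral type) all assumptions on the L-functions are theorems: `Sym^k`, `k ≤ 4`, is automorphic (Gelbart-Jacquet,
Kim-Shahidi, Kim), the continuation of `Sym^k ⊗ χ`, `k ≤ 8`, and of `Sym^i × Sym^j ⊗ χ`, `i, j ≤ 4`, is Rankin-Selberg
theory, and for the functional equations of `Sym^9 ⊗ ψ χ ω^{-4}`, `ψ` highly ramified, see Kim-Shahidi and
Gelbart-Shahidi. No Galois representation is used.

Idea. The theorem on real relations between L-functions, applied to all twists, shows that for `t = |a|²` the set of the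
nonzero values together with `0` is closed under powers, so the polynomial with these roots has integral coefficients
and all `Sym^k ⊗ det^m` of `π_i` are integral combinations of those with `k ≤ 2 J_i` on all powers of all parameters;
inductively the same holds for the exterior products. The restriction of `ρ ∘ φ` to the diagonal torus of `D` has
weights in the quotient of `ℤ^{2s} × ℤ^r` by the characters trivial on `D`; as `D` contains `SL_2(ℂ)^s`, the
quotient map has a section which is equivariant under the reflections, so the weights lift to a symmetric set, and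
the trace of `ρ(A_p^n)` is an integral combination of the traces of `⊗ Sym^{k_i} ⊗ det^{m_i} ⊗ t^l`.
-/

set_option autoImplicit false

open Filter Topology ComplexConjugate

namespace Pool.Agent.Results.MP_eea520_nt.FunctorialLiftsGSpin

/-! ### forms on `GL_2` -/

/-- `∏_{m ∈ μ} Γ_ℝ(s + m)⁻¹`, `Γ_ℝ(s) = π^{-s/2} Γ(s/2)` -/
noncomputable def invGamma (μ : List ℂ) (s : ℂ) : ℂ :=
  (μ.map fun m => (Complex.Gammaℝ (s + m))⁻¹).prod

/-- `∏_{(p, b) ∈ l} (1 - b p^{-s})` -/
noncomputable def finEuler (l : List (ℕ × ℂ)) (s : ℂ) : ℂ :=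
  (l.map fun x => 1 - x.2 * (x.1 : ℂ) ^ (-s)).prod

/-- The Euler products `L_S(s, Sym^k π ⊗ χ)`, with the parameters `χ(p) α_p^{k - i} β_p^i`, and
`L_S(s, (Sym^k π ⊗ χ)^∨)`, with the inverse parameters, extend to the meromorphic functions `N/D` and `N'/D'` on `ℂ`,
and there is a functional equation between them. -/
structure SymmetricPowerL (S : Finset ℕ) (α β χ : ℕ → ℂ) (k : ℕ) (N D N' D' : ℂ → ℂ) : Prop where
  /-- the four functions are entire -/
  entire : Differentiable ℂ N ∧ Differentiable ℂ D ∧ Differentiable ℂ N' ∧ Differentiable ℂ D'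
  /-- of order at most `3/2` -/
  order : ∃ C : ℝ, ∀ s, ‖N s‖ ≤ Real.exp (C * (1 + ‖s‖) ^ (3 / 2 : ℝ)) ∧
    ‖D s‖ ≤ Real.exp (C * (1 + ‖s‖) ^ (3 / 2 : ℝ)) ∧
    ‖N' s‖ ≤ Real.exp (C * (1 + ‖s‖) ^ (3 / 2 : ℝ)) ∧
    ‖D' s‖ ≤ Real.exp (C * (1 + ‖s‖) ^ (3 / 2 : ℝ))
  /-- the denominators have no zeros in `Re s > 1` -/
  ne_zero : ∀ s : ℂ, 1 < s.re → D s ≠ 0 ∧ D' s ≠ 0
  /-- the partial Euler products converge to `N/D` in `Re s > 1` -/
  euler : ∀ s : ℂ, 1 < s.re → Tendsto (fun X : ℕ =>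
    ∏ p ∈ (Finset.range X).filter (fun p => p.Prime ∧ p ∉ S),
      ∏ i ∈ Finset.range (k + 1), (1 - χ p * (α p ^ (k - i) * β p ^ i) * (p : ℂ) ^ (-s))⁻¹) atTop
      (𝓝 (N s / D s))
  /-- the partial Euler products of the contragredient converge to `N'/D'` in `Re s > 1` -/
  euler' : ∀ s : ℂ, 1 < s.re → Tendsto (fun X : ℕ =>
    ∏ p ∈ (Finset.range X).filter (fun p => p.Prime ∧ p ∉ S),
      ∏ i ∈ Finset.range (k + 1),
        (1 - (χ p * (α p ^ (k - i) * β p ^ i))⁻¹ * (p : ℂ) ^ (-s))⁻¹) atTop (𝓝 (N' s / D' s))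
  /-- functional equation: with `Λ(s) = q^s · (invGamma μ s)⁻¹ · finEuler l' s / finEuler l s · N s / D s` and
  `Λ'(s) = q^s · (invGamma μ' s)⁻¹ · finEuler k' s / finEuler k s · N' s / D' s` it says `Λ(s) = ε Λ'(1 - s)` -/
  functional : ∃ (μ μ' : List ℂ) (l l' k k' : List (ℕ × ℂ)) (q : ℝ) (ε : ℂ), 0 < q ∧ ε ≠ 0 ∧
    (∀ x ∈ l, x.1.Prime ∧ x.1 ∈ S) ∧ (∀ x ∈ l', x.1.Prime ∧ x.1 ∈ S) ∧
    (∀ x ∈ k, x.1.Prime ∧ x.1 ∈ S) ∧ (∀ x ∈ k', x.1.Prime ∧ x.1 ∈ S) ∧
    ∀ s, (q : ℂ) ^ s * invGamma μ' (1 - s) * finEuler k (1 - s) * finEuler l' s * (N s * D' (1 - s)) =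
      ε * (q : ℂ) ^ (1 - s) * invGamma μ s * finEuler l s * finEuler k' (1 - s) * (N' (1 - s) * D s)

/-- A unitary form on `GL_2` with central character `ω` and Satake parameters `(α_p, β_p)`, such that the L-functions
of the odd symmetric powers have the expected properties for the twists by `ψ χ ω^{-j}`, `χ` of modulus prime to the
one of `ψ`, and `|a_p|` takes at most `J` nonzero values outside a finite set `T` of primes. -/
structure FewValuesForm (S : Finset ℕ) {N₀ M₀ : ℕ} (ω : DirichletCharacter ℂ N₀)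
    (ψ : DirichletCharacter ℂ M₀) (α β : ℕ → ℂˣ) (J : ℕ) : Prop where
  /-- the central character -/
  central : ∀ p : ℕ, p.Prime → p ∉ S → (α p : ℂ) * β p = ω (p : ZMod N₀)
  /-- unitarity -/
  unitary : ∀ p : ℕ, p.Prime → p ∉ S → conj ((α p : ℂ) + β p) * ω (p : ZMod N₀) = α p + β p
  /-- functional equations of the odd symmetric powers up to `2 J + 1` -/
  symmetric : ∀ j ≤ J, ∀ (n : ℕ) [NeZero n], n.Coprime M₀ → ∀ χ : DirichletCharacter ℂ n,
    ∃ N D N' D' : ℂ → ℂ, SymmetricPowerL (S ∪ n.primeFactors) (fun p => α p) (fun p => β p)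
      (fun p => ψ (p : ZMod M₀) * χ (p : ZMod n) * (ω (p : ZMod N₀) ^ j)⁻¹) (2 * j + 1) N D N' D'
  /-- few absolute values -/
  few : ∃ T : Finset ℕ,
    (((fun p : ℕ => ‖(α p : ℂ) + β p‖) '' {p : ℕ | p.Prime ∧ p ∉ T}) \ {0}).encard ≤ J

/-- The Euler product `L_S(w, Sym^{k_1} π_1 × … × Sym^{k_s} π_s ⊗ χ)` has a meromorphic continuation. -/
def Continues (S : Finset ℕ) {s : ℕ} (α β : Fin s → ℕ → ℂ) (χ : ℕ → ℂ) (k : Fin s → ℕ) : Prop :=
  ∃ M : ℂ → ℂ, Meromorphic M ∧ ∀ w : ℂ, 1 < w.re → Tendsto (fun X : ℕ =>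
    ∏ p ∈ (Finset.range X).filter (fun p => p.Prime ∧ p ∉ S),
      ∏ e ∈ Fintype.piFinset fun i => Finset.range (k i + 1),
        (1 - χ p * (∏ i, α i p ^ (k i - e i) * β i p ^ e i) * (p : ℂ) ^ (-w))⁻¹) atTop (𝓝 (M w))

/-! ### the groups -/

/-- the standard nondegenerate quadratic form in `2 n + 1` variables -/
noncomputable def Q (n : ℕ) : QuadraticForm ℂ (Fin (2 * n + 1) → ℂ) :=
  QuadraticMap.weightedSumSquares ℂ fun _ => (1 : ℂ)

/-- the Clifford algebra of `Q n` -/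
def Cl (n : ℕ) : Type := CliffordAlgebra (Q n)

noncomputable instance instRingCl (n : ℕ) : Ring (Cl n) :=
  inferInstanceAs (Ring (CliffordAlgebra (Q n)))

noncomputable instance instAlgebraCl (n : ℕ) : Algebra ℂ (Cl n) :=
  inferInstanceAs (Algebra ℂ (CliffordAlgebra (Q n)))

/-- the spin group `Spin_{2n+1}(ℂ)` (Mathlib's `spinGroup`) -/
def Spin (n : ℕ) : Set (Cl n) := {x | x ∈ spinGroup (Q n)}

theorem spin_one (n : ℕ) : (1 : Cl n) ∈ Spin n := (spinGroup (Q n)).one_mem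

theorem spin_mul {n : ℕ} {x y : Cl n} (hx : x ∈ Spin n) (hy : y ∈ Spin n) : x * y ∈ Spin n :=
  (spinGroup (Q n)).mul_mem hx hy

theorem spin_inv {n : ℕ} {x : Cl n} (hx : x ∈ Spin n) : ∃ y ∈ Spin n, x * y = 1 :=
  ⟨@star (CliffordAlgebra (Q n)) _ x, spinGroup.star_mem hx, spinGroup.mul_star_self_of_mem hx⟩

/-- the subgroup of the units of the Clifford algebra of the products of a scalar with an element of the spin group -/
noncomputable def GSpinSub (n : ℕ) : Subgroup (Cl n)ˣ where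
  carrier := {u | ∃ c : ℂˣ, ∃ x ∈ Spin n, u.val = (c : ℂ) • x}
  one_mem' := ⟨1, 1, spin_one n, by simp⟩
  mul_mem' := by
    rintro u v ⟨c, x, hx, hu⟩ ⟨d, y, hy, hv⟩
    refine ⟨c * d, x * y, spin_mul hx hy, ?_⟩
    rw [Units.val_mul, hu, hv, smul_mul_smul_comm, Units.val_mul]
  inv_mem' := by
    rintro u ⟨c, x, hx, hu⟩
    obtain ⟨y, hy, hxy⟩ := spin_inv hx
    refine ⟨c⁻¹, y, hy, ?_⟩
    refine Units.inv_eq_of_mul_eq_one_right ?_
    rw [hu, smul_mul_smul_comm, hxy, Units.mul_inv, one_smul]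

/-- the L-group `GSpin_{2n+1}(ℂ)` of `GSp_{2n}` -/
def GSpin (n : ℕ) : Type := GSpinSub n

noncomputable instance instGroupGSpin (n : ℕ) : Group (GSpin n) := (GSpinSub n).toGroup

/-- the element of the Clifford algebra -/
def GSpin.cl {n : ℕ} (g : GSpin n) : Cl n := g.val.val

/-- the regular functions on `GSpin_{2n+1}(ℂ)`: the polynomials in the linear functions of `g` and of `g⁻¹` -/
noncomputable def regular (n : ℕ) : Subalgebra ℂ (GSpin n → ℂ) :=
  Algebra.adjoin ℂ {f | ∃ l : Cl n →ₗ[ℂ] ℂ, f = (fun g => l g.cl) ∨ f = fun g => l g⁻¹.cl}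

/-- `ρ` is algebraic: the entries of `ρ(g)` are regular functions -/
def IsAlgebraic {n m : ℕ} (ρ : GSpin n →* GL (Fin m) ℂ) : Prop :=
  ∀ i j : Fin m, (fun g => (ρ g).val i j) ∈ regular n

/-- the group `GL_2(ℂ)^s × (ℂˣ)^r` -/
def G (s r : ℕ) : Type := (Fin s → GL (Fin 2) ℂ) × (Fin r → ℂˣ)

noncomputable instance instGroupG (s r : ℕ) : Group (G s r) :=
  inferInstanceAs (Group ((Fin s → GL (Fin 2) ℂ) × (Fin r → ℂˣ)))

/-- the regular functions on a subgroup of `GL_2(ℂ)^s × (ℂˣ)^r`: the polynomials in the entries of the components and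
their inverses -/
noncomputable def regularOn {s r : ℕ} (D : Subgroup (G s r)) : Subalgebra ℂ (D → ℂ) :=
  Algebra.adjoin ℂ ({f | ∃ i a b, f = (fun x => (x.1.1 i).val a b) ∨ f = fun x => (x.1.1 i)⁻¹.val a b} ∪
    {f | ∃ j, f = (fun x => ((x.1.2 j : ℂˣ) : ℂ)) ∨ f = fun x => (((x.1.2 j)⁻¹ : ℂˣ) : ℂ)})

/-- `φ` is algebraic: the linear functions of `φ(x)` are regular functions of `x` -/
def IsAlgebraicHom {s r n : ℕ} {D : Subgroup (G s r)} (φ : D →* GSpin n) : Prop :=
  ∀ l : Cl n →ₗ[ℂ] ℂ, (fun x => l (φ x).cl) ∈ regularOn D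

/-- the diagonal matrix `diag (a, b)` -/
noncomputable def diag (a b : ℂˣ) : GL (Fin 2) ℂ :=
  ⟨!![(a : ℂ), 0; 0, (b : ℂ)], !![((a⁻¹ : ℂˣ) : ℂ), 0; 0, ((b⁻¹ : ℂˣ) : ℂ)], by
    ext i j
    fin_cases i <;> fin_cases j <;> simp [Matrix.mul_apply, Fin.sum_univ_two], by
    ext i j
    fin_cases i <;> fin_cases j <;> simp [Matrix.mul_apply, Fin.sum_univ_two]⟩

/-! ### proof -/

open Pool.Agent.L7h29.GT (TM LM em eb RR swT)

theorem adjoin_comp {X Y : Type} (θ : X → Y) (A : Set (Y → ℂ)) (L : Subalgebra ℂ (X → ℂ))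
    (h : ∀ f ∈ A, (fun x => f (θ x)) ∈ L) : ∀ f ∈ Algebra.adjoin ℂ A, (fun x => f (θ x)) ∈ L := by
  intro f hf
  induction hf using Algebra.adjoin_induction with
  | mem f hf => exact h f hf
  | algebraMap c => exact L.algebraMap_mem c
  | add f g _ _ hf hg => exact L.add_mem hf hg
  | mul f g _ _ hf hg => exact L.mul_mem hf hg

theorem regularOn_inv {s r : ℕ} (D : Subgroup (G s r)) {f : D → ℂ} (hf : f ∈ regularOn D) :
    (fun x => f x⁻¹) ∈ regularOn D := by
  refine adjoin_comp (fun x : D => x⁻¹) _ (regularOn D) (fun f hf => ?_) f hf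
  refine Algebra.subset_adjoin ?_
  rcases hf with ⟨i, a, b, rfl | rfl⟩ | ⟨j, rfl | rfl⟩
  · exact Or.inl ⟨i, a, b, Or.inr rfl⟩
  · refine Or.inl ⟨i, a, b, Or.inl ?_⟩
    funext x
    show ((x.1.1 i)⁻¹)⁻¹.val a b = _
    rw [inv_inv]
  · exact Or.inr ⟨j, Or.inr rfl⟩
  · refine Or.inr ⟨j, Or.inl ?_⟩
    funext x
    show ((((x.1.2 j)⁻¹)⁻¹ : ℂˣ) : ℂ) = _
    rw [inv_inv]

theorem regular_comp {s r n m : ℕ} {D : Subgroup (G s r)} {φ : D →* GSpin n} (hφ : IsAlgebraicHom φ)
    {ρ : GSpin n →* GL (Fin m) ℂ} (hρ : IsAlgebraic ρ) (i j : Fin m) :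
    (fun x => (ρ (φ x)).val i j) ∈ regularOn D := by
  refine adjoin_comp (fun x => φ x) _ (regularOn D) (fun f hf => ?_) _ (hρ i j)
  rcases hf with ⟨l, rfl | rfl⟩
  · exact hφ l
  · have h1 := regularOn_inv D (hφ l)
    refine (congrArg (· ∈ regularOn D) ?_).mp h1
    funext x
    rw [map_inv]

theorem diag_one : diag 1 1 = 1 := by
  refine Units.ext ?_
  ext a b
  fin_cases a <;> fin_cases b <;> simp [diag]

theorem diag_mul (a b c d : ℂˣ) : diag (a * c) (b * d) = diag a b * diag c d := by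
  refine Units.ext ?_
  ext i j
  fin_cases i <;> fin_cases j <;> simp [diag, Matrix.mul_apply, Fin.sum_univ_two]

/-- the diagonal torus -/
noncomputable def dd (s r : ℕ) : TM s r →* G s r where
  toFun g := (fun i => diag (g.1 i).1 (g.1 i).2, g.2)
  map_one' := by
    refine Prod.ext ?_ rfl
    funext i
    exact diag_one
  map_mul' g h := by
    refine Prod.ext ?_ rfl
    funext i
    exact diag_mul _ _ _ _

/-- the reflection of `SL_2` -/
noncomputable def w0 : GL (Fin 2) ℂ :=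
  ⟨!![0, 1; -1, 0], !![0, -1; 1, 0], by
    ext i j
    fin_cases i <;> fin_cases j <;> simp [Matrix.mul_apply, Fin.sum_univ_two], by
    ext i j
    fin_cases i <;> fin_cases j <;> simp [Matrix.mul_apply, Fin.sum_univ_two]⟩

theorem w0_diag (a b : ℂˣ) : diag b a = w0 * diag a b * w0⁻¹ := by
  rw [eq_mul_inv_iff_mul_eq]
  refine Units.ext ?_
  ext i j
  fin_cases i <;> fin_cases j <;> simp [diag, w0, Matrix.mul_apply, Fin.sum_univ_two]

/-- the reflections -/
noncomputable def wi {s : ℕ} (r : ℕ) (i : Fin s) : G s r := (Function.update 1 i w0, 1)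

theorem wi_dd {s r : ℕ} (i : Fin s) (g : TM s r) :
    dd s r (swT i g) = wi r i * dd s r g * (wi r i)⁻¹ := by
  refine Prod.ext ?_ ?_
  · funext j
    show diag _ _ = (Function.update 1 i w0 : Fin s → GL (Fin 2) ℂ) j * diag (g.1 j).1 (g.1 j).2 *
      ((Function.update 1 i w0 : Fin s → GL (Fin 2) ℂ) j)⁻¹
    by_cases h : j = i
    · subst h
      rw [Function.update_self, ← w0_diag]
      simp [swT]
    · rw [Function.update_of_ne h]
      simp [swT, Function.update_of_ne h]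
  · show g.2 = 1 * g.2 * 1⁻¹
    simp

section torus

variable {s r : ℕ}

theorem em_fst (i : Fin s) (y : ℤ × ℤ) (g : TM s r) :
    em ((Function.update 0 i y, 0) : LM s r) g = ((g.1 i).1 : ℂ) ^ y.1 * ((g.1 i).2 : ℂ) ^ y.2 := by
  rw [Pool.Agent.L7h29.GT.em_apply]
  simp only [Pi.zero_apply, zpow_zero, Finset.prod_const_one, mul_one]
  rw [Finset.prod_eq_single i (fun j _ hj => by
    rw [Function.update_of_ne hj]
    simp) (fun h => absurd (Finset.mem_univ i) h), Function.update_self]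

theorem em_snd (j : Fin r) (k : ℤ) (g : TM s r) :
    em ((0, Function.update 0 j k) : LM s r) g = (g.2 j : ℂ) ^ k := by
  rw [Pool.Agent.L7h29.GT.em_apply]
  simp only [Pi.zero_apply, Prod.fst_zero, Prod.snd_zero, zpow_zero, Finset.prod_const_one, mul_one,
    one_mul]
  rw [Finset.prod_eq_single j (fun i _ hi => by
    rw [Function.update_of_ne hi]
    simp) (fun h => absurd (Finset.mem_univ j) h), Function.update_self]

variable (T : Subgroup (TM s r))

/-- Laurent polynomials on a subgroup of the torus -/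
noncomputable def LauS : Subalgebra ℂ (T → ℂ) :=
  (AddMonoidAlgebra.lift ℂ (T → ℂ) (LM s r ⧸ RR T)
    (Pool.Agent.L7h29.GT.Gen.Fm (Pool.Agent.L7h29.GT.chars_eb T))).range

theorem mem_LauS {f : T → ℂ} : f ∈ LauS T ↔ Pool.Agent.L7h29.GT.Gen.Lau (eb T) f := by
  rw [Pool.Agent.L7h29.GT.Gen.lau_iff (Pool.Agent.L7h29.GT.chars_eb T)]
  exact AlgHom.mem_range _

theorem em_mem (x : LM s r) : (fun g : T => em x g) ∈ LauS T := by
  rw [mem_LauS]
  have h1 := Pool.Agent.L7h29.GT.Gen.lau_char (Pool.Agent.L7h29.GT.chars_eb T)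
    (x : LM s r ⧸ RR T)
  refine (congrArg (Pool.Agent.L7h29.GT.Gen.Lau (eb T)) ?_).mp h1
  funext g
  exact Pool.Agent.L7h29.GT.eb_mk x g

end torus

theorem regularOn_lau {s r : ℕ} (D : Subgroup (G s r)) {f : D → ℂ} (hf : f ∈ regularOn D) :
    Pool.Agent.L7h29.GT.Gen.Lau (eb (D.comap (dd s r)))
      fun g : D.comap (dd s r) => f ⟨dd s r g, g.2⟩ := by
  rw [← mem_LauS]
  refine adjoin_comp (fun g : D.comap (dd s r) => (⟨dd s r g, g.2⟩ : D)) _ (LauS _)
    (fun f hf => ?_) f hf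
  have hz : (fun _ : D.comap (dd s r) => (0 : ℂ)) ∈ LauS (D.comap (dd s r)) := zero_mem _
  rcases hf with ⟨i, a, b, rfl | rfl⟩ | ⟨j, rfl | rfl⟩
  · show (fun g : D.comap (dd s r) => (diag (g.1.1 i).1 (g.1.1 i).2).val a b) ∈ _
    fin_cases a <;> fin_cases b
    · refine (congrArg (· ∈ LauS (D.comap (dd s r))) ?_).mp
        (em_mem _ (Function.update 0 i (1, 0), 0))
      funext g
      rw [em_fst]
      simp [diag]
    · exact hz
    · exact hz
    · refine (congrArg (· ∈ LauS (D.comap (dd s r))) ?_).mp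
        (em_mem _ (Function.update 0 i (0, 1), 0))
      funext g
      rw [em_fst]
      simp [diag]
  · show (fun g : D.comap (dd s r) => (diag (g.1.1 i).1 (g.1.1 i).2)⁻¹.val a b) ∈ _
    fin_cases a <;> fin_cases b
    · refine (congrArg (· ∈ LauS (D.comap (dd s r))) ?_).mp
        (em_mem _ (Function.update 0 i (-1, 0), 0))
      funext g
      rw [em_fst]
      simp [diag]
    · exact hz
    · exact hz
    · refine (congrArg (· ∈ LauS (D.comap (dd s r))) ?_).mp
        (em_mem _ (Function.update 0 i (0, -1), 0))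
      funext g
      rw [em_fst]
      simp [diag]
  · refine (congrArg (· ∈ LauS (D.comap (dd s r))) ?_).mp
      (em_mem _ (0, Function.update 0 j 1))
    funext g
    rw [em_snd, zpow_one]
    rfl
  · refine (congrArg (· ∈ LauS (D.comap (dd s r))) ?_).mp
      (em_mem _ (0, Function.update 0 j (-1)))
    funext g
    rw [em_snd, zpow_neg, zpow_one, ← Units.val_inv_eq_inv_val]
    rfl

theorem det_conj {m : ℕ} (P M : GL (Fin m) ℂ) (c : ℂ) :
    (1 - c • (P * M * P⁻¹).val).det = (1 - c • M.val).det := by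
  rw [← Matrix.det_units_conj P (1 - c • M.val)]
  congr 1
  rw [Units.val_mul, Units.val_mul, mul_sub, sub_mul, mul_one, Units.mul_inv, Matrix.mul_smul,
    Matrix.smul_mul]

/-- **All `ρ`, for functorial lifts to `GSp_{2n}`, `n ≥ 3`, of forms on `GL_2` with few `|a_p|` and Hecke characters.** -/
theorem result {n : ℕ} (_ : 3 ≤ n) {s r : ℕ} {S : Finset ℕ} {N M₀ : ℕ} [NeZero N] [NeZero M₀]
    (hN : N.primeFactors ⊆ S) (hM₀ : M₀.primeFactors ⊆ S)
    (ω : Fin s → DirichletCharacter ℂ N) (ψ : Fin s → DirichletCharacter ℂ M₀)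
    {α β : Fin s → ℕ → ℂˣ} {J : Fin s → ℕ}
    (hπ : ∀ i, FewValuesForm S (ω i) (ψ i) (α i) (β i) (J i))
    (hc : ∀ k : Fin s → ℕ, (∀ i, k i ≤ 2 * J i) → ∀ (m : ℕ) [NeZero m]
      (χ : DirichletCharacter ℂ m), Continues (S ∪ m.primeFactors) (fun i p => α i p)
        (fun i p => β i p) (fun p => χ (p : ZMod m)) k)
    (χ : Fin r → DirichletCharacter ℂ N) (z : Fin r → ℂ) (t : ℕ → Fin r → ℂˣ)
    (ht : ∀ p : ℕ, p.Prime → p ∉ S → ∀ j, (t p j : ℂ) = χ j (p : ZMod N) * (p : ℂ) ^ z j)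
    (D : Subgroup (G s r)) (hD : ∀ g : Fin s → GL (Fin 2) ℂ, (∀ i, (g i).val.det = 1) → (g, 1) ∈ D)
    (φ : D →* GSpin n) (hφ : IsAlgebraicHom φ) (A : ℕ → GSpin n) (x : ℕ → D)
    (hx : ∀ p : ℕ, p.Prime → p ∉ S → (x p : G s r) = (fun i => diag (α i p) (β i p), t p))
    (hA : ∀ p : ℕ, p.Prime → p ∉ S → IsConj (φ (x p)) (A p))
    (m : ℕ) (ρ : GSpin n →* GL (Fin m) ℂ) (hρ : IsAlgebraic ρ) :
    ∃ (σ : ℝ) (M : ℂ → ℂ), Meromorphic M ∧ ∀ w : ℂ, σ < w.re → Tendsto (fun X : ℕ =>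
      ∏ p ∈ (Finset.range X).filter (fun p => p.Prime ∧ p ∉ S),
        ((1 - (p : ℂ) ^ (-w) • (ρ (A p)).val).det)⁻¹) atTop (𝓝 (M w)) := by
  classical
  -- the forms
  have hform : ∀ i, (∃ V : Finset ℝ, V.card ≤ J i ∧ Pool.Agent.L7h29.GT.Ready S
      (fun p => (α i p : ℂ)) (fun p => (β i p : ℂ)) (insert (-2) V)) ∧
      ∀ p : ℕ, p.Prime → p ∉ S → ∃ n : ℕ, 0 < n ∧ (α i p : ℂ) ^ n = 1 ∧ (β i p : ℂ) ^ n = 1 := by
    intro i
    obtain ⟨T, hT⟩ := (hπ i).few
    have hab := (hπ i).central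
    exact Pool.Agent.L7h29.GT.form' hN hab (hπ i).unitary (ψ := ψ i) hM₀ (J := J i) (by
      intro j hj n _ hn χ
      obtain ⟨N, D, N', D', h⟩ := (hπ i).symmetric j hj n hn χ
      have h1 : Pool.Agent.L7h29.GT.DL (S ∪ n.primeFactors) (2 * j + 2)
          (Pool.Agent.L7h29.GT.sb (fun p => α i p) (fun p => β i p) (fun p => ψ i (p : ZMod M₀) *
            χ (p : ZMod n) * (ω i (p : ZMod _) ^ j)⁻¹) (2 * j + 1)) N D N' D' :=
        ⟨h.entire.1, h.entire.2.1, h.entire.2.2.1, h.entire.2.2.2, h.order,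
          h.ne_zero, h.euler, h.euler', h.functional⟩
      refine ⟨N, D, N', D', h1.congr fun p hp hpS i' _ => ?_⟩
      rw [Finset.mem_union, not_or] at hpS
      unfold Pool.Agent.L7h29.GT.sb
      simp only [hab p hp hpS.1]) T hT
  choose V hV hR using fun i => (hform i).1
  have hna : ∀ i, ∀ p : ℕ, p.Prime → p ∉ S → ‖(α i p : ℂ)‖ = 1 := fun i p hp hpS => by
    obtain ⟨n, hn, h1, -⟩ := (hform i).2 p hp hpS
    exact Complex.norm_eq_one_of_pow_eq_one h1 hn.ne'
  have hnb : ∀ i, ∀ p : ℕ, p.Prime → p ∉ S → ‖(β i p : ℂ)‖ = 1 := fun i p hp hpS => by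
    obtain ⟨n, hn, -, h1⟩ := (hform i).2 p hp hpS
    exact Complex.norm_eq_one_of_pow_eq_one h1 hn.ne'
  -- the torus
  set T : Subgroup (TM s r) := D.comap (dd s r) with hT
  have hdiag : ∀ c : ℂˣ, (diag c c⁻¹).val.det = 1 := by
    intro c
    simp [diag, Matrix.det_fin_two]
  have hw0 : w0.val.det = 1 := by
    simp [w0, Matrix.det_fin_two]
  have hSL : ∀ c : Fin s → ℂˣ, ((fun i => (c i, (c i)⁻¹), 1) : TM s r) ∈ T := fun c =>
    hD (fun i => diag (c i) (c i)⁻¹) fun i => hdiag (c i)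
  have hwi : ∀ i : Fin s, wi r i ∈ D := by
    intro i
    refine hD (Function.update 1 i w0) fun j => ?_
    by_cases h : j = i
    · subst h
      rw [Function.update_self, hw0]
    · rw [Function.update_of_ne h]
      simp
  have hsw : ∀ i : Fin s, ∀ g ∈ T, swT i g ∈ T := by
    intro i g hg
    rw [hT, Subgroup.mem_comap, wi_dd]
    exact D.mul_mem (D.mul_mem (hwi i) hg) (D.inv_mem (hwi i))
  set inc : T →* D := ((dd s r).comp T.subtype).codRestrict D fun g => g.2 with hinc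
  set τ : T →* Matrix (Fin m) (Fin m) ℂ :=
    (Units.coeHom (Matrix (Fin m) (Fin m) ℂ)).comp (ρ.comp (φ.comp inc)) with hτ
  obtain ⟨B, mu, hB, hmu, hdet⟩ := Pool.Agent.L7h29.GT.weights_sub hSL hsw τ
    (fun i j => regularOn_lau D (regular_comp hφ hρ i j))
    (fun i => (ρ (φ ⟨wi r i, hwi i⟩)).val) (fun i => (ρ (φ ⟨wi r i, hwi i⟩))⁻¹.val)
    (fun i => Units.mul_inv _) (fun i g => by
      have h1 : inc ⟨swT i g, hsw i g g.2⟩ = ⟨wi r i, hwi i⟩ * inc g * (⟨wi r i, hwi i⟩ : D)⁻¹ :=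
        Subtype.ext (wi_dd i (g : TM s r))
      simp only [hτ, MonoidHom.comp_apply, Units.coeHom_apply]
      rw [h1, map_mul, map_mul, map_inv, map_mul, map_mul, map_inv, Units.val_mul, Units.val_mul])
  obtain ⟨σ, M, hM, hlim⟩ := Pool.Agent.L7h29.GT.levm hN ω (fun i => (hπ i).central) hV hR hna hnb
    (fun k hk n _ χ => hc k hk n χ) χ z t ht B hB mu hmu
  refine ⟨σ, M, hM, fun w hw => (hlim w hw).congr fun X => ?_⟩
  refine Finset.prod_congr rfl fun p hp => ?_
  rw [Finset.mem_filter] at hp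
  have hmem : ((fun i => (α i p, β i p), t p) : TM s r) ∈ T := by
    rw [hT, Subgroup.mem_comap]
    have h1 := hx p hp.2.1 hp.2.2
    exact (congrArg (· ∈ D) h1).mp (x p).2
  have hxp : inc ⟨_, hmem⟩ = x p := Subtype.ext (hx p hp.2.1 hp.2.2).symm
  obtain ⟨g, hg⟩ := isConj_iff.1 (hA p hp.2.1 hp.2.2)
  rw [← hg, map_mul, map_mul, map_inv, det_conj, ← hxp, Finset.prod_inv_distrib]
  congr 1
  exact (hdet ⟨_, hmem⟩ _).symm

end Pool.Agent.Results.MP_eea520_nt.FunctorialLiftsGSpin
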